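import Pool.Agent.MP_1048c2_an.Defs

namespace Pool.Agent.MP_1048c2_an

open MeasureTheory Filter Topology

/-- Euclidean space of dimension four. -/
abbrev E4 : Type := EuclideanSpace ℝ (Fin 4)

/-- Points of the group. -/
abbrev Pt : Type := E4 × ℝ

/-- The standard basis. -/
noncomputable def basisVec (i : Fin 4) : E4 := EuclideanSpace.single i 1

/-- The complex structure of `ℝ^4`. -/
noncomputable def rot (z : E4) : E4 := !₂[-z 1, z 0, -z 3, z 2]

/-- The symplectic form of `ℝ^4`. -/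
def omega4 (z z' : E4) : ℝ := -z 1 * z' 0 + z 0 * z' 1 - z 3 * z' 2 + z 2 * z' 3

lemma norm_sq_euc4 (z : E4) : ‖z‖ ^ 2 = z 0 ^ 2 + z 1 ^ 2 + z 2 ^ 2 + z 3 ^ 2 := by
  simp [EuclideanSpace.norm_sq_eq, Fin.sum_univ_four]

/-- The Heisenberg algebra of dimension five. -/
noncomputable def heis2 : HeisenbergType 4 1 E4 ℝ where
  e := EuclideanSpace.basisFun (Fin 4) ℝ
  ε := OrthonormalBasis.singleton (Fin 1) ℝ
  bracket := omega4
  bracket_linear_left := fun z' =>
    ⟨by intro a b; simp [omega4]; ring, by intro a b; simp [omega4]; ring⟩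
  bracket_linear_right := fun z =>
    ⟨by intro a b; simp [omega4]; ring, by intro a b; simp [omega4]; ring⟩
  bracket_self := by
    intro z
    simp [omega4]; ring
  bracket_span := by
    rw [eq_top_iff]
    intro σ _
    apply Submodule.subset_span
    refine ⟨basisVec 0, σ • basisVec 1, ?_⟩
    simp [omega4, basisVec]
  J := fun σ z => σ • rot z
  inner_J := by
    intro σ z z'
    simp [rot, omega4, PiLp.inner_apply, Fin.sum_univ_four]
    ring
  J_J := by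
    intro σ z
    ext i
    fin_cases i <;> simp [rot] <;> ring

/-- The coordinates `z_i`. -/
noncomputable def cz (i : Fin 4) : Pt →L[ℝ] ℝ :=
  (EuclideanSpace.proj i).comp (ContinuousLinearMap.fst ℝ _ _)

/-- The coordinate `σ`. -/
noncomputable def cs : Pt →L[ℝ] ℝ :=
  ContinuousLinearMap.snd ℝ _ _

@[simp] lemma cz_apply (i : Fin 4) (x : Pt) : cz i x = x.1 i := rfl
@[simp] lemma cs_apply (x : Pt) : cs x = x.2 := rfl

/-- `|z|^2`. -/
def rr (x : Pt) : ℝ := x.1 0 ^ 2 + x.1 1 ^ 2 + x.1 2 ^ 2 + x.1 3 ^ 2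

/-- The modified quartic. -/
def NN (x : Pt) : ℝ :=
  rr x ^ 2 - 2 * (x.1 0 ^ 2 + x.1 1 ^ 2 - x.1 2 ^ 2 - x.1 3 ^ 2) + 1 + 16 * x.2 ^ 2

lemma hz (i : Fin 4) (x : Pt) : HasFDerivAt (fun y : Pt => y.1 i) (cz i) x :=
  (cz i).hasFDerivAt

lemma hs (x : Pt) : HasFDerivAt (fun y : Pt => y.2) cs x :=
  cs.hasFDerivAt

lemma contDiff_z (i : Fin 4) (n : WithTop ℕ∞) : ContDiff ℝ n (fun y : Pt => y.1 i) :=
  (cz i).contDiff

lemma contDiff_s (n : WithTop ℕ∞) : ContDiff ℝ n (fun y : Pt => y.2) :=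
  cs.contDiff

lemma contDiff_rr (n : WithTop ℕ∞) : ContDiff ℝ n rr := by
  have h0 := contDiff_z 0 n
  have h1 := contDiff_z 1 n
  have h2 := contDiff_z 2 n
  have h3 := contDiff_z 3 n
  unfold rr
  fun_prop

lemma contDiff_NN (n : WithTop ℕ∞) : ContDiff ℝ n NN := by
  have h0 := contDiff_z 0 n
  have h1 := contDiff_z 1 n
  have h2 := contDiff_z 2 n
  have h3 := contDiff_z 3 n
  have h4 := contDiff_s n
  have h5 := contDiff_rr n
  unfold NN
  fun_prop

/-- The differential of `rr`. -/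
noncomputable def dr (x : Pt) : Pt →L[ℝ] ℝ :=
  (2 * x.1 0) • cz 0 + (2 * x.1 1) • cz 1 + (2 * x.1 2) • cz 2 + (2 * x.1 3) • cz 3

lemma hr (x : Pt) : HasFDerivAt rr (dr x) x := by
  have := ((((hz 0 x).pow 2).add ((hz 1 x).pow 2)).add ((hz 2 x).pow 2)).add ((hz 3 x).pow 2)
  refine HasFDerivAt.congr_fderiv this ?_
  refine ContinuousLinearMap.ext fun v => ?_
  simp [dr]

/-- The differential of `NN`. -/
noncomputable def dN (x : Pt) : Pt →L[ℝ] ℝ :=
  (4 * rr x * x.1 0 - 4 * x.1 0) • cz 0 + (4 * rr x * x.1 1 - 4 * x.1 1) • cz 1 +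
    (4 * rr x * x.1 2 + 4 * x.1 2) • cz 2 + (4 * rr x * x.1 3 + 4 * x.1 3) • cz 3 +
    (32 * x.2) • cs

lemma hN (x : Pt) : HasFDerivAt NN (dN x) x := by
  have := (((((hr x).pow 2).sub ((((((hz 0 x).pow 2).add ((hz 1 x).pow 2)).sub
    ((hz 2 x).pow 2)).sub ((hz 3 x).pow 2)).const_mul 2)).add_const 1).add
    (((hs x).pow 2).const_mul 16))
  refine HasFDerivAt.congr_fderiv this ?_
  refine ContinuousLinearMap.ext fun v => ?_
  simp [dN, dr]
  ring

end Pool.Agent.MP_1048c2_an
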