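import Pool.Agent.MP_1048c2_an.Defs

/-!
Capacitary potentials in the horizontal Sobolev class.
-/

namespace Pool.Agent.MP_1048c2_an

open MeasureTheory Filter Topology

variable {m k : ℕ} {H V : Type} [NormedAddCommGroup H] [InnerProductSpace ℝ H]
  [NormedAddCommGroup V] [InnerProductSpace ℝ V]

/-- `φ` is smooth with compact support in `U`. -/
def IsTest (U : Set (H × V)) (φ : H × V → ℝ) : Prop :=
  (∀ n : ℕ, ContDiff ℝ n φ) ∧ HasCompactSupport φ ∧ tsupport φ ⊆ U

/-- The P-function `|g|^p / f^(p (Q + p - 2) / (Q - p))` of `f` with horizontal gradient `g`. -/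
noncomputable def weakP (k : ℕ) (p : ℝ) (f : H × V → ℝ) (g : Fin m → H × V → ℝ) (x : H × V) : ℝ :=
  √(∑ i, g i x ^ 2) ^ p / f x ^ (p * (homDim m k + p - 2) / (homDim m k - p))

variable [FiniteDimensional ℝ H] [MeasurableSpace H] [BorelSpace H]
  [FiniteDimensional ℝ V] [MeasurableSpace V] [BorelSpace V]

/-- `f` is the `p`-capacitary potential of `Ω` and `g` is its weak horizontal gradient: outside
the closure of `Ω` the functions `g i` are locally of class `L^p`, `g i = X_i f` in the sense of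
distributions and `Δ_{H,p} f = 0` weakly; `f` is continuous and positive outside `Ω`, equals one
on the boundary and tends to zero at infinity. -/
def IsSobolevPotential (G : HeisenbergType m k H V) (p : ℝ) (Ω : Set (H × V)) (f : H × V → ℝ)
    (g : Fin m → H × V → ℝ) : Prop :=
  (∀ i, LocallyIntegrableOn (g i) (closure Ω)ᶜ ∧
    LocallyIntegrableOn (fun x => |g i x| ^ p) (closure Ω)ᶜ) ∧
  (∀ φ, IsTest (closure Ω)ᶜ φ → (∀ i, ∫ x, f x * X G i φ x = -∫ x, g i x * φ x) ∧
    ∫ x, √(∑ i, g i x ^ 2) ^ (p - 2) * ∑ i, g i x * X G i φ x = 0) ∧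
  ContinuousOn f Ωᶜ ∧ (∀ x ∉ Ω, 0 < f x) ∧ (∀ x ∈ frontier Ω, f x = 1) ∧
  Tendsto f (cocompact (H × V)) (𝓝 0)

end Pool.Agent.MP_1048c2_an
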