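import Mathlib

/-!
Groups of Heisenberg type in exponential coordinates, the horizontal gradient, weak solutions of
the horizontal p-Laplace equation, capacitary potentials, the P-function and gauge balls.
-/

namespace Pool.Agent.MP_1048c2_an

open MeasureTheory Filter Topology

/-- A Lie algebra of Heisenberg type `H ⊕ V` with orthonormal bases `e` of `H` (dimension `m`) and
`ε` of `V` (dimension `k`): the bracket of two elements of `H` lies in `V`, these brackets span
`V`, and `V` is central. -/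
structure HeisenbergType (m k : ℕ) (H V : Type) [NormedAddCommGroup H] [InnerProductSpace ℝ H]
    [NormedAddCommGroup V] [InnerProductSpace ℝ V] where
  e : OrthonormalBasis (Fin m) ℝ H
  ε : OrthonormalBasis (Fin k) ℝ V
  bracket : H → H → V
  bracket_linear_left : ∀ z', IsLinearMap ℝ fun z => bracket z z'
  bracket_linear_right : ∀ z, IsLinearMap ℝ fun z' => bracket z z'
  bracket_self : ∀ z, bracket z z = 0
  bracket_span : Submodule.span ℝ {σ | ∃ z z', σ = bracket z z'} = ⊤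
  J : V → H → H
  inner_J : ∀ σ z z', inner ℝ (J σ z) z' = inner ℝ σ (bracket z z')
  J_J : ∀ σ z, J σ (J σ z) = -(‖σ‖ ^ 2) • z

/-- The homogeneous dimension `Q = m + 2 k`. -/
def homDim (m k : ℕ) : ℝ := m + 2 * k

/-- The constant `c_R = (Q - p) / (p - 1) / R^2`. -/
noncomputable def cConst (m k : ℕ) (p R : ℝ) : ℝ :=
  (homDim m k - p) / (p - 1) * (1 / R ^ 2)

variable {m k : ℕ} {H V : Type} [NormedAddCommGroup H] [InnerProductSpace ℝ H]
  [NormedAddCommGroup V] [InnerProductSpace ℝ V]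

/-- The horizontal vector field `X_i = ∂/∂z_i + (1/2) ∑_l ⟨e_i, J(ε_l) z⟩ ∂/∂σ_l`; a point
`exp (z + σ)` of the group is written as the pair `(z, σ)`. -/
noncomputable def X (G : HeisenbergType m k H V) (i : Fin m) (f : H × V → ℝ) (x : H × V) : ℝ :=
  fderiv ℝ f x (G.e i, 0) +
    (1 / 2) * ∑ l : Fin k, inner ℝ (G.e i) (G.J (G.ε l) x.1) * fderiv ℝ f x (0, G.ε l)

/-- The length `|∇_H f|` of the horizontal gradient. -/
noncomputable def horGradNorm (G : HeisenbergType m k H V) (f : H × V → ℝ) (x : H × V) : ℝ :=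
  √(∑ i : Fin m, X G i f x ^ 2)

/-- The P-function `|∇_H f|^p / f^(p (Q + p - 2) / (Q - p))`. -/
noncomputable def pFunction (G : HeisenbergType m k H V) (p : ℝ) (f : H × V → ℝ) (x : H × V) :
    ℝ :=
  horGradNorm G f x ^ p / f x ^ (p * (homDim m k + p - 2) / (homDim m k - p))

/-- The gauge ball `B_R(0, σ₀)`. -/
def gaugeBall (R : ℝ) (σ₀ : V) : Set (H × V) :=
  {x | ‖x.1‖ ^ 4 + 16 * ‖x.2 - σ₀‖ ^ 2 < R ^ 4}

/-- `Ω` is open, connected, bounded, and a sublevel set of a smooth function whose differential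
does not vanish on the zero level. -/
def IsSmoothBoundedDomain (Ω : Set (H × V)) : Prop :=
  IsOpen Ω ∧ IsConnected Ω ∧ Bornology.IsBounded Ω ∧
    ∃ ψ : H × V → ℝ, (∀ n : ℕ, ContDiff ℝ n ψ) ∧ Ω = {x | ψ x < 0} ∧
      ∀ x, ψ x = 0 → fderiv ℝ ψ x ≠ 0

/-- The identity `P = c_R^p |z|^p` holds outside the closure of `Ω`. -/
def PIdentity (G : HeisenbergType m k H V) (p R : ℝ) (Ω : Set (H × V)) (f : H × V → ℝ) : Prop :=
  ∀ x ∈ (closure Ω)ᶜ, pFunction G p f x = cConst m k p R ^ p * ‖x.1‖ ^ p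

variable [FiniteDimensional ℝ H] [MeasurableSpace H] [BorelSpace H]
  [FiniteDimensional ℝ V] [MeasurableSpace V] [BorelSpace V]

/-- `f` is of class `C^1` on `U` and solves `Δ_{H,p} f = 0` weakly in `U`. -/
def IsWeaklyPHarmonicOn (G : HeisenbergType m k H V) (p : ℝ) (f : H × V → ℝ)
    (U : Set (H × V)) : Prop :=
  ContDiffOn ℝ 1 f U ∧
    ∀ φ : H × V → ℝ, ContDiff ℝ 1 φ → HasCompactSupport φ → tsupport φ ⊆ U →
      IntegrableOn
        (fun x => horGradNorm G f x ^ (p - 2) * ∑ i : Fin m, X G i f x * X G i φ x) U ∧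
      ∫ x in U, horGradNorm G f x ^ (p - 2) * ∑ i : Fin m, X G i f x * X G i φ x = 0

/-- `f` is the `p`-capacitary potential of `Ω`. -/
def IsCapacitaryPotential (G : HeisenbergType m k H V) (p : ℝ) (Ω : Set (H × V))
    (f : H × V → ℝ) : Prop :=
  IsWeaklyPHarmonicOn G p f (closure Ω)ᶜ ∧ ContinuousOn f (Ω)ᶜ ∧ (∀ x ∉ Ω, 0 < f x) ∧
    (∀ x ∈ frontier Ω, f x = 1) ∧ Tendsto f (cocompact (H × V)) (𝓝 0)

end Pool.Agent.MP_1048c2_an
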