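import Pool.Agent.MP_1048c2_an.Calc

namespace Pool.Agent.MP_1048c2_an

open MeasureTheory Filter Topology

/-- The potential. -/
noncomputable def ff (x : Pt) : ℝ := 16 * (NN x)⁻¹

/-- The horizontal derivatives of `NN`, and the resulting vertical component. -/
def M0 (x : Pt) : ℝ := 4 * rr x * x.1 0 - 4 * x.1 0 - 16 * (x.1 1 * x.2)
def M1 (x : Pt) : ℝ := 4 * rr x * x.1 1 - 4 * x.1 1 + 16 * (x.1 0 * x.2)
def M2 (x : Pt) : ℝ := 4 * rr x * x.1 2 + 4 * x.1 2 - 16 * (x.1 3 * x.2)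
def M3 (x : Pt) : ℝ := 4 * rr x * x.1 3 + 4 * x.1 3 + 16 * (x.1 2 * x.2)
def Ms (x : Pt) : ℝ := 8 * (rr x * x.2)

/-- The coordinate directions. -/
noncomputable def vz (i : Fin 4) : Pt := (basisVec i, 0)
noncomputable def vs : Pt := (0, 1)

lemma heis_eps (i : Fin 1) : heis2.ε i = 1 := OrthonormalBasis.singleton_apply i

lemma heis_e (i : Fin 4) : heis2.e i = basisVec i := EuclideanSpace.basisFun_apply _ _ i

lemma heis_J (σ : ℝ) (z : E4) : heis2.J σ z = σ • rot z := rfl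

lemma X0 (g : Pt → ℝ) (x : Pt) :
    X heis2 0 g x = fderiv ℝ g x (vz 0) - x.1 1 / 2 * fderiv ℝ g x vs := by
  simp [X, heis_eps, heis_e, heis_J, rot, basisVec, vz, vs, PiLp.inner_apply]
  ring

lemma X1 (g : Pt → ℝ) (x : Pt) :
    X heis2 1 g x = fderiv ℝ g x (vz 1) + x.1 0 / 2 * fderiv ℝ g x vs := by
  simp [X, heis_eps, heis_e, heis_J, rot, basisVec, vz, vs, PiLp.inner_apply]
  ring

lemma X2 (g : Pt → ℝ) (x : Pt) :
    X heis2 2 g x = fderiv ℝ g x (vz 2) - x.1 3 / 2 * fderiv ℝ g x vs := by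
  simp [X, heis_eps, heis_e, heis_J, rot, basisVec, vz, vs, PiLp.inner_apply]
  ring

lemma X3 (g : Pt → ℝ) (x : Pt) :
    X heis2 3 g x = fderiv ℝ g x (vz 3) + x.1 2 / 2 * fderiv ℝ g x vs := by
  simp [X, heis_eps, heis_e, heis_J, rot, basisVec, vz, vs, PiLp.inner_apply]
  ring

lemma hNinv {x : Pt} (hx : NN x ≠ 0) :
    HasFDerivAt (fun y => (NN y)⁻¹) ((-((NN x)⁻¹) ^ 2) • dN x) x := by
  have := (hasDerivAt_inv hx).comp_hasFDerivAt x (hN x)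
  refine HasFDerivAt.congr_fderiv this ?_
  rw [inv_pow]

lemma hff {x : Pt} (hx : NN x ≠ 0) :
    HasFDerivAt ff ((-16 * ((NN x)⁻¹) ^ 2) • dN x) x := by
  have := (hNinv hx).const_mul 16
  refine HasFDerivAt.congr_fderiv this ?_
  refine ContinuousLinearMap.ext fun v => ?_
  simp
  ring

lemma Xf0 {x : Pt} (hx : NN x ≠ 0) : X heis2 0 ff x = -16 * ((NN x)⁻¹) ^ 2 * M0 x := by
  rw [X0, (hff hx).fderiv]
  simp [dN, vz, vs, basisVec, M0]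
  ring

lemma Xf1 {x : Pt} (hx : NN x ≠ 0) : X heis2 1 ff x = -16 * ((NN x)⁻¹) ^ 2 * M1 x := by
  rw [X1, (hff hx).fderiv]
  simp [dN, vz, vs, basisVec, M1]
  ring

lemma Xf2 {x : Pt} (hx : NN x ≠ 0) : X heis2 2 ff x = -16 * ((NN x)⁻¹) ^ 2 * M2 x := by
  rw [X2, (hff hx).fderiv]
  simp [dN, vz, vs, basisVec, M2]
  ring

lemma Xf3 {x : Pt} (hx : NN x ≠ 0) : X heis2 3 ff x = -16 * ((NN x)⁻¹) ^ 2 * M3 x := by
  rw [X3, (hff hx).fderiv]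
  simp [dN, vz, vs, basisVec, M3]
  ring

lemma sum_M_sq (x : Pt) :
    M0 x ^ 2 + M1 x ^ 2 + M2 x ^ 2 + M3 x ^ 2 = 16 * rr x * NN x := by
  simp only [M0, M1, M2, M3, NN, rr]
  ring

/-- The flux attached to a polynomial `M`. -/
noncomputable def flux (M : Pt → ℝ) (x : Pt) : ℝ := -16 * ((NN x)⁻¹) ^ 2 * M x

lemma fderiv_flux {M : Pt → ℝ} {x : Pt} {M' : Pt →L[ℝ] ℝ} (hx : NN x ≠ 0)
    (hM : HasFDerivAt M M' x) (v : Pt) :
    fderiv ℝ (flux M) x v =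
      -16 * ((NN x)⁻¹) ^ 2 * M' v + 32 * ((NN x)⁻¹) ^ 3 * dN x v * M x := by
  have := (((hNinv hx).pow 2).const_mul (-16)).mul hM
  have h2 : fderiv ℝ (flux M) x = _ := this.fderiv
  rw [h2]
  simp
  ring

lemma dflux0 {x : Pt} (hx : NN x ≠ 0) : fderiv ℝ (flux M0) x (vz 0) =
    -16 * ((NN x)⁻¹) ^ 2 * (4 * rr x + 8 * x.1 0 ^ 2 - 4) +
      32 * ((NN x)⁻¹) ^ 3 * (4 * rr x * x.1 0 - 4 * x.1 0) * M0 x := by
  have := (((((hr x).const_mul 4).mul (hz 0 x)).sub ((hz 0 x).const_mul 4)).sub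
    (((hz 1 x).mul (hs x)).const_mul 16))
  rw [fderiv_flux (M := M0) hx this]
  simp [dr, dN, vz, basisVec]
  left
  ring

lemma dflux1 {x : Pt} (hx : NN x ≠ 0) : fderiv ℝ (flux M1) x (vz 1) =
    -16 * ((NN x)⁻¹) ^ 2 * (4 * rr x + 8 * x.1 1 ^ 2 - 4) +
      32 * ((NN x)⁻¹) ^ 3 * (4 * rr x * x.1 1 - 4 * x.1 1) * M1 x := by
  have := (((((hr x).const_mul 4).mul (hz 1 x)).sub ((hz 1 x).const_mul 4)).add
    (((hz 0 x).mul (hs x)).const_mul 16))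
  rw [fderiv_flux (M := M1) hx this]
  simp [dr, dN, vz, basisVec]
  left
  ring

lemma dflux2 {x : Pt} (hx : NN x ≠ 0) : fderiv ℝ (flux M2) x (vz 2) =
    -16 * ((NN x)⁻¹) ^ 2 * (4 * rr x + 8 * x.1 2 ^ 2 + 4) +
      32 * ((NN x)⁻¹) ^ 3 * (4 * rr x * x.1 2 + 4 * x.1 2) * M2 x := by
  have := (((((hr x).const_mul 4).mul (hz 2 x)).add ((hz 2 x).const_mul 4)).sub
    (((hz 3 x).mul (hs x)).const_mul 16))
  rw [fderiv_flux (M := M2) hx this]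
  simp [dr, dN, vz, basisVec]
  left
  ring

lemma dflux3 {x : Pt} (hx : NN x ≠ 0) : fderiv ℝ (flux M3) x (vz 3) =
    -16 * ((NN x)⁻¹) ^ 2 * (4 * rr x + 8 * x.1 3 ^ 2 + 4) +
      32 * ((NN x)⁻¹) ^ 3 * (4 * rr x * x.1 3 + 4 * x.1 3) * M3 x := by
  have := (((((hr x).const_mul 4).mul (hz 3 x)).add ((hz 3 x).const_mul 4)).add
    (((hz 2 x).mul (hs x)).const_mul 16))
  rw [fderiv_flux (M := M3) hx this]
  simp [dr, dN, vz, basisVec]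
  left
  ring

lemma dfluxs {x : Pt} (hx : NN x ≠ 0) : fderiv ℝ (flux Ms) x vs =
    -16 * ((NN x)⁻¹) ^ 2 * (8 * rr x) +
      32 * ((NN x)⁻¹) ^ 3 * (32 * x.2) * Ms x := by
  have := ((hr x).mul (hs x)).const_mul 8
  rw [fderiv_flux (M := Ms) hx this]
  simp [dr, dN, vs]

lemma div_flux {x : Pt} (hx : NN x ≠ 0) :
    fderiv ℝ (flux M0) x (vz 0) + fderiv ℝ (flux M1) x (vz 1) + fderiv ℝ (flux M2) x (vz 2) +
      fderiv ℝ (flux M3) x (vz 3) + fderiv ℝ (flux Ms) x vs = 0 := by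
  rw [dflux0 hx, dflux1 hx, dflux2 hx, dflux3 hx, dfluxs hx]
  have h1 : (4 * rr x + 8 * x.1 0 ^ 2 - 4) + (4 * rr x + 8 * x.1 1 ^ 2 - 4) +
      (4 * rr x + 8 * x.1 2 ^ 2 + 4) + (4 * rr x + 8 * x.1 3 ^ 2 + 4) + 8 * rr x = 32 * rr x := by
    simp only [rr]; ring
  have h2 : (4 * rr x * x.1 0 - 4 * x.1 0) * M0 x + (4 * rr x * x.1 1 - 4 * x.1 1) * M1 x +
      (4 * rr x * x.1 2 + 4 * x.1 2) * M2 x + (4 * rr x * x.1 3 + 4 * x.1 3) * M3 x +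
      (32 * x.2) * Ms x = 16 * rr x * NN x := by
    simp only [M0, M1, M2, M3, Ms, NN, rr]; ring
  have h3 : NN x * (NN x)⁻¹ = 1 := mul_inv_cancel₀ hx
  linear_combination (-16 * ((NN x)⁻¹) ^ 2) * h1 + (32 * ((NN x)⁻¹) ^ 3) * h2 +
    (512 * rr x * ((NN x)⁻¹) ^ 2) * h3

lemma pairing {x : Pt} (hx : NN x ≠ 0) (φ : Pt → ℝ) :
    ∑ i : Fin 4, X heis2 i ff x * X heis2 i φ x =
      flux M0 x * fderiv ℝ φ x (vz 0) + flux M1 x * fderiv ℝ φ x (vz 1) +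
        flux M2 x * fderiv ℝ φ x (vz 2) + flux M3 x * fderiv ℝ φ x (vz 3) +
        flux Ms x * fderiv ℝ φ x vs := by
  rw [Fin.sum_univ_four, Xf0 hx, Xf1 hx, Xf2 hx, Xf3 hx, X0, X1, X2, X3]
  simp only [flux, M0, M1, M2, M3, Ms, rr]
  ring

lemma contDiffAt_flux {M : Pt → ℝ} (hM : ContDiff ℝ 1 M) {x : Pt} (hx : NN x ≠ 0) :
    ContDiffAt ℝ 1 (flux M) x := by
  have h1 : ContDiffAt ℝ 1 (fun y => (NN y)⁻¹) x := (contDiff_NN 1).contDiffAt.inv hx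
  exact ((contDiffAt_const.mul (h1.pow 2)).mul hM.contDiffAt)

lemma contDiff_M : ContDiff ℝ 1 M0 ∧ ContDiff ℝ 1 M1 ∧ ContDiff ℝ 1 M2 ∧ ContDiff ℝ 1 M3 ∧
    ContDiff ℝ 1 Ms := by
  have h0 := contDiff_z 0 1
  have h1 := contDiff_z 1 1
  have h2 := contDiff_z 2 1
  have h3 := contDiff_z 3 1
  have h4 := contDiff_s 1
  have h5 := contDiff_rr 1
  refine ⟨?_, ?_, ?_, ?_, ?_⟩
  · unfold M0; fun_prop
  · unfold M1; fun_prop
  · unfold M2; fun_prop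
  · unfold M3; fun_prop
  · unfold Ms; fun_prop

end Pool.Agent.MP_1048c2_an
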