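import Pool.Agent.MP_1048c2_an.WDefs

/-!
The quartics whose sublevel sets solve the capacitary problem for the sub-Laplacian.
-/

namespace Pool.Agent.MP_1048c2_an

variable {m k : ℕ} {H V : Type} [NormedAddCommGroup H] [InnerProductSpace ℝ H]
  [NormedAddCommGroup V] [InnerProductSpace ℝ V]

/-- The quartic `|z|^4 - 2 ⟨B z, z⟩ + c^2 + 16 |σ - σ₀|^2`. -/
noncomputable def quartic (B : H →L[ℝ] H) (c : ℝ) (σ₀ : V) (x : H × V) : ℝ :=
  ‖x.1‖ ^ 4 - 2 * inner ℝ (B x.1) x.1 + c ^ 2 + 16 * ‖x.2 - σ₀‖ ^ 2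

/-- `c ≥ 0` and `B` is symmetric, commutes with every `J σ`, has trace zero and square `c^2`. -/
def Admissible (G : HeisenbergType m k H V) (B : H →L[ℝ] H) (c : ℝ) : Prop :=
  0 ≤ c ∧ (∀ z z', inner ℝ (B z) z' = inner ℝ z (B z')) ∧ (∀ σ z, B (G.J σ z) = G.J σ (B z)) ∧
    ∑ i, inner ℝ (G.e i) (B (G.e i)) = 0 ∧ ∀ z, B (B z) = c ^ 2 • z

end Pool.Agent.MP_1048c2_an
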