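import Pool.Agent.MP_1048c2_an.Mg.All
import Pool.Agent.MP_1048c2_an.QDefs

section
/-!
Statements of the steps of the description of all solutions for `p = 2`.
-/

set_option autoImplicit false
set_option linter.unusedSectionVars false

namespace Pool.Agent.MP_1048c2_an.Cl

open Filter Topology Set Module
open scoped InnerProductSpace

variable {m k : ℕ} {H V : Type} [NormedAddCommGroup H] [InnerProductSpace ℝ H]
  [NormedAddCommGroup V] [InnerProductSpace ℝ V] [FiniteDimensional ℝ H] [FiniteDimensional ℝ V]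
  (G : HeisenbergType m k H V)

/-- the horizontal part of the quartic -/
noncomputable def n0 (B : H →L[ℝ] H) (c : ℝ) (z : H) : ℝ := ‖z‖ ^ 4 - 2 * ⟪B z, z⟫_ℝ + c ^ 2

theorem quartic_eq (B : H →L[ℝ] H) (c : ℝ) (σ₀ : V) (x : H × V) :
    quartic B c σ₀ x = n0 B c x.1 + 16 * ‖x.2 - σ₀‖ ^ 2 := rfl

theorem n0_cont (B : H →L[ℝ] H) (c : ℝ) : Continuous (n0 B c) := by
  unfold n0
  fun_prop

theorem quartic_cont (B : H →L[ℝ] H) (c : ℝ) (σ₀ : V) : Continuous (quartic B c σ₀) := by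
  unfold quartic
  fun_prop

/-- in the case that is not radial `N` is locally an admissible quartic -/
def QThirdSt : Prop :=
  ∀ (W : Set (H × V)) (N : H × V → ℝ), Phys G W N → ∀ x ∈ W,
    ∃ (B : H →L[ℝ] H) (c : ℝ) (σ₀ : V), Admissible G B c ∧ ∀ᶠ y in 𝓝 x, N y = quartic B c σ₀ y

variable (H V) in
/-- a function of class three that is locally a quartic on a dense set is one quartic -/
def QGlueSt : Prop :=
  ∀ (U : Set (H × V)) (N : H × V → ℝ), IsOpen U → IsPreconnected U → ContDiffOn ℝ 3 N U →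
    (∀ x ∈ U, x ∈ closure {y | y ∈ U ∧ ∃ (B : H →L[ℝ] H) (c : ℝ) (σ₀ : V),
      ∀ᶠ y' in 𝓝 y, N y' = quartic B c σ₀ y'}) →
    ∀ (B : H →L[ℝ] H) (c : ℝ) (σ₀ : V), ∀ y₀ ∈ U, (∀ᶠ y' in 𝓝 y₀, N y' = quartic B c σ₀ y') →
      ∀ x ∈ U, N x = quartic B c σ₀ x

/-- the sublevel sets of the horizontal part without the origin and the zero set are connected -/
def QConnSt : Prop :=
  ∀ (B : H →L[ℝ] H) (c L : ℝ), 0 < k → Admissible G B c →
    IsPreconnected {z : H | z ≠ 0 ∧ 0 < n0 B c z ∧ n0 B c z < L}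

/-- the topology of the level sets of the quartic -/
def QTopSt : Prop :=
  ∀ (B : H →L[ℝ] H) (c : ℝ) (σ₀ : V) (L : ℝ), 0 < k → Admissible G B c →
    IsPreconnected {x : H × V | (x.1 ≠ 0 ∧ 0 < n0 B c x.1) ∧ L < quartic B c σ₀ x} ∧
    IsPreconnected {x : H × V | (x.1 ≠ 0 ∧ 0 < n0 B c x.1) ∧ quartic B c σ₀ x < L} ∧
    Dense {x : H × V | x.1 ≠ 0 ∧ 0 < n0 B c x.1} ∧
    (∃ x : H × V, quartic B c σ₀ x = 0) ∧
    {x : H × V | L ≤ quartic B c σ₀ x} ⊆ closure {x : H × V | L < quartic B c σ₀ x} ∧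
    Bornology.IsBounded {x : H × V | quartic B c σ₀ x < L}

variable [MeasurableSpace H] [BorelSpace H] [MeasurableSpace V] [BorelSpace V]

/-- the potentials of the sublevel sets -/
def QPotSt : Prop :=
  ∀ (B : H →L[ℝ] H) (c : ℝ) (σ₀ : V) (R : ℝ), 0 < k → Admissible G B c → 0 < R →
    IsCapacitaryPotential G 2 {x | quartic B c σ₀ x < R ^ 4}
      (fun x => (quartic B c σ₀ x / R ^ 4) ^ (-(homDim m k - 2) / 4)) ∧
    PIdentity G 2 R {x | quartic B c σ₀ x < R ^ 4}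
      (fun x => (quartic B c σ₀ x / R ^ 4) ^ (-(homDim m k - 2) / 4))

end Pool.Agent.MP_1048c2_an.Cl

end

section
/-!
The potentials of the sublevel sets of the admissible quartics.
-/

set_option autoImplicit false
set_option linter.unusedSectionVars false

namespace Pool.Agent.MP_1048c2_an.Cl

open Filter Topology Set Module
open scoped InnerProductSpace

variable {m k : ℕ} {H V : Type} [NormedAddCommGroup H] [InnerProductSpace ℝ H]
  [NormedAddCommGroup V] [InnerProductSpace ℝ V] [FiniteDimensional ℝ H] [FiniteDimensional ℝ V]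
  (G : HeisenbergType m k H V)

variable [MeasurableSpace H] [BorelSpace H] [MeasurableSpace V] [BorelSpace V]

/-- the horizontal gradient of the quartic -/
noncomputable def w_QPot (B : H →L[ℝ] H) (s : V) (x : H × V) : H × V :=
  ((4 * ‖x.1‖ ^ 2) • x.1 - (4 : ℝ) • B x.1 + (16 : ℝ) • JL G (x.2 - s) x.1,
    (8 * ‖x.1‖ ^ 2) • (x.2 - s))

theorem contDiff_N_QPot (B : H →L[ℝ] H) (c : ℝ) (s : V) (n : WithTop ℕ∞) :
    ContDiff ℝ n (quartic B c s : H × V → ℝ) := by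
  have h1 : ContDiff ℝ n fun x : H × V => ‖x.1‖ ^ 2 := contDiff_fst.norm_sq ℝ
  have h2 : ContDiff ℝ n fun x : H × V => ‖x.2 - s‖ ^ 2 :=
    (contDiff_snd.sub contDiff_const).norm_sq ℝ
  have h3 : ContDiff ℝ n fun x : H × V => ⟪B x.1, x.1⟫_ℝ :=
    (B.contDiff.comp contDiff_fst).inner ℝ contDiff_fst
  have h4 : (quartic B c s : H × V → ℝ) =
      fun x => (‖x.1‖ ^ 2) ^ 2 - 2 * ⟪B x.1, x.1⟫_ℝ + c ^ 2 + 16 * ‖x.2 - s‖ ^ 2 := by
    funext x; rw [quartic]; ring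
  rw [h4]
  exact (((h1.pow 2).sub (contDiff_const.mul h3)).add contDiff_const).add (contDiff_const.mul h2)

theorem contDiff_w_QPot (B : H →L[ℝ] H) (s : V) (n : WithTop ℕ∞) :
    ContDiff ℝ n (w_QPot G B s) := by
  have h1 : ContDiff ℝ n fun x : H × V => ‖x.1‖ ^ 2 := contDiff_fst.norm_sq ℝ
  have h2 : ContDiff ℝ n fun x : H × V => JL G (x.2 - s) x.1 :=
    contDiffOn_univ.1 (contDiffOn_J G (contDiffOn_snd.sub contDiffOn_const) contDiffOn_fst)
  exact ((((contDiff_const.mul h1).smul contDiff_fst).sub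
    ((B.contDiff.comp contDiff_fst).const_smul _)).add (h2.const_smul _)).prodMk
      ((contDiff_const.mul h1).smul (contDiff_snd.sub contDiff_const))

variable {G} {B : H →L[ℝ] H} {c R : ℝ} {s : V}

theorem dN_QPot (hA : Admissible G B c) (x v : H × V) :
    fderiv ℝ (quartic B c s) x v =
      ⟪(4 * ‖x.1‖ ^ 2) • x.1 - (4 : ℝ) • B x.1, v.1⟫_ℝ + ⟪(32 : ℝ) • (x.2 - s), v.2⟫_ℝ := by
  have h1 := (hasFDerivAt_fst (𝕜 := ℝ) (p := x)).norm_sq
  have h2 := ((hasFDerivAt_snd (𝕜 := ℝ) (p := x)).sub_const s).norm_sq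
  have h3 := (B.hasFDerivAt.comp x (hasFDerivAt_fst (𝕜 := ℝ) (p := x))).inner ℝ
    (hasFDerivAt_fst (𝕜 := ℝ) (p := x))
  have h4 : (quartic B c s : H × V → ℝ) =
      fun x => (‖x.1‖ ^ 2) ^ 2 - 2 * ⟪B x.1, x.1⟫_ℝ + c ^ 2 + 16 * ‖x.2 - s‖ ^ 2 := by
    funext x; rw [quartic]; ring
  have h5 : HasFDerivAt
      (fun x : H × V => (‖x.1‖ ^ 2) ^ 2 - 2 * ⟪B x.1, x.1⟫_ℝ + c ^ 2 + 16 * ‖x.2 - s‖ ^ 2)
      _ x := (((h1.pow 2).sub (h3.const_mul 2)).add_const (c ^ 2)).add (h2.const_mul 16)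
  rw [h4, h5.fderiv]
  have h6 : ⟪B v.1, x.1⟫_ℝ = ⟪B x.1, v.1⟫_ℝ := by rw [hA.2.1, real_inner_comm]
  rw [inner_sub_left, real_inner_smul_left, real_inner_smul_left, real_inner_smul_left]
  generalize x.2 - s = y
  simp [h6]
  ring

theorem JA_QPot (hA : Admissible G B c) (μ : V) (z : H) : ⟪JL G μ z, B z⟫_ℝ = 0 := by
  have h1 := hA.2.1 (JL G μ z) z
  have h0 : B (JL G μ z) = JL G μ (B z) := hA.2.2.1 μ z
  have h2 := J_skew G μ (B z) z
  rw [h0, h2, real_inner_comm] at h1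
  linarith

theorem BA_QPot (hA : Admissible G B c) (z : H) : BL G z (B z) = 0 :=
  ext_inner_left ℝ fun μ => by rw [← inner_JL, JA_QPot hA, inner_zero_right]

theorem normA_QPot (hA : Admissible G B c) (z : H) : ‖B z‖ ^ 2 = c ^ 2 * ‖z‖ ^ 2 := by
  rw [← real_inner_self_eq_norm_sq, hA.2.1, hA.2.2.2.2, real_inner_smul_right,
    real_inner_self_eq_norm_sq]

theorem vf_of_QPot (hA : Admissible G B c) {f : H × V → ℝ} {x : H × V} {a : ℝ}
    (h : fderiv ℝ f x = a • fderiv ℝ (quartic B c s) x) : vf G f x = a • w_QPot G B s x := by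
  obtain ⟨h1, h2⟩ := xi_la_of G (u := f) (x := x)
    (ξ := a • ((4 * ‖x.1‖ ^ 2) • x.1 - (4 : ℝ) • B x.1)) (μ := a • (32 : ℝ) • (x.2 - s)) fun v => by
      rw [h, _root_.smul_apply, dN_QPot hA, real_inner_smul_left _ _ a,
        real_inner_smul_left _ _ a, smul_eq_mul, mul_add]
  rw [w_QPot]
  generalize x.2 - s = y at h2 ⊢
  simp only [vf, h1, h2, map_smul, map_sub, BL_self, BA_QPot hA, _root_.smul_apply,
    Prod.smul_mk, Prod.mk.injEq]
  constructor <;> module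

theorem norm_w_QPot (hA : Admissible G B c) (x : H × V) :
    ‖(w_QPot G B s x).1‖ ^ 2 = 16 * ‖x.1‖ ^ 2 * quartic B c s x := by
  rw [w_QPot, quartic]
  generalize x.2 - s = y
  have h1 := JA_QPot hA y x.1
  have h2 := inner_J_self G y x.1
  rw [real_inner_comm] at h1 h2
  simp only [norm_add_sq_real, norm_sub_sq_real, norm_smul, mul_pow, Real.norm_eq_abs,
    sq_abs, norm_J_sq, normA_QPot hA, inner_sub_left, real_inner_smul_left, real_inner_smul_right,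
    h1, h2, real_inner_comm (B x.1)]
  ring

theorem dN_w_QPot (hA : Admissible G B c) (x : H × V) :
    fderiv ℝ (quartic B c s) x (w_QPot G B s x) = 16 * ‖x.1‖ ^ 2 * quartic B c s x := by
  have h := vf_of_QPot hA (f := quartic B c s) (s := s) (x := x) (a := 1) (by rw [one_smul])
  rw [one_smul] at h
  rw [← norm_w_QPot hA, ← h, fderiv_vf, real_inner_self_eq_norm_sq]

theorem div_w_QPot (hA : Admissible G B c) (x : H × V) :
    LinearMap.trace ℝ (H × V) (fderiv ℝ (w_QPot G B s) x) = 4 * (homDim m k + 2) * ‖x.1‖ ^ 2 := by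
  have h0 := hasFDerivAt_fst (𝕜 := ℝ) (p := x)
  have h0' := (hasFDerivAt_snd (𝕜 := ℝ) (p := x)).sub_const s
  have h1 := h0.norm_sq
  have h5 : HasFDerivAt (w_QPot G B s) _ x :=
    ((((h1.const_mul 4).smul h0).sub ((B.hasFDerivAt.comp x h0).const_smul (4 : ℝ))).add
      ((hasFDerivAt_J G h0' h0).const_smul (16 : ℝ))).prodMk ((h1.const_mul 8).smul h0')
  rw [h5.fderiv, trace_eq G]
  have h2 : ∀ i, ⟪G.e i, JL G (x.2 - s) (G.e i)⟫_ℝ = 0 := fun i => by
    rw [real_inner_comm, inner_J_self]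
  have h3 : ∑ i, ⟪x.1, G.e i⟫_ℝ * ⟪G.e i, x.1⟫_ℝ = ‖x.1‖ ^ 2 := by
    rw [G.e.sum_inner_mul_inner, real_inner_self_eq_norm_sq]
  have h4 := hA.2.2.2.1
  generalize x.2 - s = y at h2 ⊢
  simp [inner_add_right, inner_sub_right, real_inner_smul_right, h2, G.e.orthonormal.1,
    G.ε.orthonormal.1, Finset.sum_add_distrib, Finset.sum_sub_distrib, ← Finset.mul_sum, h4,
    mul_assoc, h3, homDim]
  ring

theorem N_ge_QPot (hA : Admissible G B c) (x : H × V) :
    ‖x‖ ^ 2 + -(c + 1 + 2 * ‖s‖ ^ 2) ≤ quartic B c s x := by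
  have h1 : ⟪B x.1, x.1⟫_ℝ ≤ c * ‖x.1‖ ^ 2 := by
    have h := real_inner_le_norm (B x.1) x.1
    have h' : ‖B x.1‖ = c * ‖x.1‖ :=
      (pow_left_inj₀ (norm_nonneg _) (mul_nonneg hA.1 (norm_nonneg _)) two_ne_zero).1
        (by rw [normA_QPot hA, mul_pow])
    rw [h'] at h
    linarith
  have h3 : ‖x‖ ^ 2 ≤ ‖x.1‖ ^ 2 + ‖x.2‖ ^ 2 := by
    rw [Prod.norm_def]
    rcases max_cases ‖x.1‖ ‖x.2‖ with h | h <;> rw [h.1] <;> nlinarith [sq_nonneg ‖x.1‖,
      sq_nonneg ‖x.2‖]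
  have h4 : ‖x.2‖ ^ 2 ≤ (‖x.2 - s‖ + ‖s‖) ^ 2 :=
    pow_le_pow_left₀ (norm_nonneg _) (norm_le_norm_sub_add _ _) 2
  unfold quartic
  nlinarith [sq_nonneg (‖x.1‖ ^ 2 - c - 1 / 2), sq_nonneg ‖x.2 - s‖, sq_nonneg (‖x.2 - s‖ - ‖s‖)]

theorem df_QPot (hR : 0 < R) (q : ℝ) {x : H × V} (hx : 0 < quartic B c s x) :
    HasFDerivAt (fun x : H × V => (quartic B c s x / R ^ 4) ^ q)
      ((q / R ^ 4 * (quartic B c s x / R ^ 4) ^ (q - 1)) • fderiv ℝ (quartic B c s) x) x := by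
  have h1 : HasFDerivAt (quartic B c s) (fderiv ℝ (quartic B c s) x) x :=
    ((contDiff_N_QPot B c s 1).differentiable (by simp) x).hasFDerivAt
  have h2 : HasFDerivAt (fun x : H × V => quartic B c s x / R ^ 4) ((1 / R ^ 4 : ℝ) • fderiv ℝ (quartic B c s) x) x := by
    have := h1.const_mul (1 / R ^ 4 : ℝ)
    refine this.congr_of_eventuallyEq (Eventually.of_forall fun y => ?_)
    simp only
    ring
  refine (h2.rpow_const (p := q) (Or.inl (by positivity))).congr_fderiv ?_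
  rw [smul_smul]
  congr 1
  ring

theorem cd_f_QPot (hR : 0 < R) (q : ℝ) (n : WithTop ℕ∞) {x : H × V} (hx : 0 < quartic B c s x) :
    ContDiffAt ℝ n (fun x : H × V => (quartic B c s x / R ^ 4) ^ q) x :=
  ((contDiff_N_QPot B c s n).contDiffAt.div_const (R ^ 4)).rpow_const_of_ne (by positivity)

theorem div_f_QPot (hA : Admissible G B c) (hR : 0 < R) (a : ℝ) {x : H × V} (hx : 0 < quartic B c s x) :
    LinearMap.trace ℝ (H × V) (fderiv ℝ (fun y : H × V =>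
      (a * (quartic B c s y / R ^ 4) ^ (-(homDim m k - 2) / 4 - 1)) • w_QPot G B s y) x) = 0 := by
  have h1 : HasFDerivAt (w_QPot G B s) (fderiv ℝ (w_QPot G B s) x) x :=
    ((contDiff_w_QPot G B s 1).differentiable (by simp) x).hasFDerivAt
  have h2 : HasFDerivAt (fun y : H × V =>
      (a * (quartic B c s y / R ^ 4) ^ (-(homDim m k - 2) / 4 - 1)) • w_QPot G B s y) _ x :=
    ((df_QPot hR (-(homDim m k - 2) / 4 - 1) hx).const_mul a).smul h1
  rw [h2.fderiv, ContinuousLinearMap.toLinearMap_add, map_add,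
    ContinuousLinearMap.toLinearMap_smul, map_smul, div_w_QPot hA]
  have h3 : ∀ (L : H × V →L[ℝ] ℝ) (v : H × V),
      LinearMap.trace ℝ (H × V) (L.smulRight v) = L v := fun L v =>
    LinearMap.trace_smulRight (L : H × V →ₗ[ℝ] ℝ) v
  rw [h3]
  simp only [_root_.smul_apply, dN_w_QPot hA, smul_eq_mul]
  rw [Real.rpow_sub_one (x := quartic B c s x / R ^ 4) (by positivity) (-(homDim m k - 2) / 4 - 1)]
  field_simp
  ring

theorem qpot_st (G : HeisenbergType m k H V) : QPotSt G := by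
  intro B c s R hk hA hR
  have hc : Continuous (quartic B c s : H × V → ℝ) := (contDiff_N_QPot B c s 0).continuous
  have hm : (1 : ℝ) ≤ m := by exact_mod_cast m_pos G hk
  have hk' : (1 : ℝ) ≤ k := by exact_mod_cast hk
  have hQ : 0 < homDim m k - 2 := by unfold homDim; linarith
  have hp : ∀ x : H × V, x ∉ {x : H × V | quartic B c s x < R ^ 4} → 0 < quartic B c s x := fun x hx =>
    lt_of_lt_of_le (by positivity) (not_lt.1 hx)
  have hp' : ∀ x ∈ (closure {x : H × V | quartic B c s x < R ^ 4})ᶜ, 0 < quartic B c s x := fun x hx =>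
    hp x fun h => hx (subset_closure h)
  have hv : ∀ x : H × V, 0 < quartic B c s x →
      vf G (fun x => (quartic B c s x / R ^ 4) ^ (-(homDim m k - 2) / 4)) x =
        (-(homDim m k - 2) / 4 / R ^ 4 * (quartic B c s x / R ^ 4) ^ (-(homDim m k - 2) / 4 - 1)) •
          w_QPot G B s x := fun x hx => vf_of_QPot hA (df_QPot hR _ hx).fderiv
  refine ⟨⟨⟨fun x hx => (cd_f_QPot hR _ 1 (hp' x hx)).contDiffWithinAt, fun φ hφ hcs hsub => ?_⟩,
    fun x hx => (cd_f_QPot hR _ 0 (hp x hx)).continuousAt.continuousWithinAt,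
    fun x hx => Real.rpow_pos_of_pos (by have := hp x hx; positivity) _, fun x hx => ?_, ?_⟩,
    fun x hx => ?_⟩
  · have : (MeasureTheory.volume : MeasureTheory.Measure (H × V)).IsAddHaarMeasure :=
      MeasureTheory.Measure.prod.instIsAddHaarMeasure _ _
    obtain ⟨h1, h2⟩ := div_free_CouA (μ := MeasureTheory.volume) (w := fun y : H × V =>
      (-(homDim m k - 2) / 4 / R ^ 4 * (quartic B c s y / R ^ 4) ^ (-(homDim m k - 2) / 4 - 1)) • w_QPot G B s y)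
      hφ hcs (fun x hx => (contDiffAt_const.mul (cd_f_QPot hR _ 1 (hp' x (hsub hx)))).smul
        (contDiff_w_QPot G B s 1).contDiffAt) fun x hx => div_f_QPot hA hR _ (hp' x (hsub hx))
    have hmeas : MeasurableSet (closure {x : H × V | quartic B c s x < R ^ 4})ᶜ :=
      isClosed_closure.measurableSet.compl
    have heq : Set.EqOn (fun y : H × V => fderiv ℝ φ y
        ((-(homDim m k - 2) / 4 / R ^ 4 * (quartic B c s y / R ^ 4) ^ (-(homDim m k - 2) / 4 - 1)) • w_QPot G B s y))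
        (fun x => horGradNorm G (fun x => (quartic B c s x / R ^ 4) ^ (-(homDim m k - 2) / 4)) x ^
          ((2 : ℝ) - 2) * ∑ i : Fin m,
            X G i (fun x => (quartic B c s x / R ^ 4) ^ (-(homDim m k - 2) / 4)) x * X G i φ x)
        (closure {x : H × V | quartic B c s x < R ^ 4})ᶜ := by
      intro x hx
      simp only [sub_self, Real.rpow_zero, one_mul]
      rw [sum_X_CouA, hv x (hp' x hx)]
    refine ⟨h1.integrableOn.congr_fun heq hmeas, ?_⟩
    rw [← MeasureTheory.setIntegral_congr_fun hmeas heq,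
      MeasureTheory.setIntegral_eq_integral_of_forall_compl_eq_zero, h2]
    intro x hx
    have hx' : x ∉ tsupport φ := fun h => hx (hsub h)
    have h0 : φ =ᶠ[𝓝 x] fun _ => 0 := notMem_tsupport_iff_eventuallyEq.mp hx'
    rw [h0.fderiv_eq]
    simp
  · have : quartic B c s x = R ^ 4 := frontier_lt_subset_eq hc continuous_const hx
    simp only [this, div_self (pow_pos hR 4).ne', Real.one_rpow]
  · have h1 : Tendsto (fun x : H × V => ‖x‖ ^ 2 + -(c + 1 + 2 * ‖s‖ ^ 2))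
        (cocompact (H × V)) atTop :=
      tendsto_atTop_add_const_right _ _
        ((tendsto_pow_atTop two_ne_zero).comp tendsto_norm_cocompact_atTop)
    have h2 : Tendsto (fun x : H × V => quartic B c s x / R ^ 4) (cocompact (H × V)) atTop :=
      (tendsto_atTop_mono (N_ge_QPot hA) h1).atTop_div_const (by positivity)
    have h3 := (tendsto_rpow_neg_atTop (y := (homDim m k - 2) / 4) (by positivity)).comp h2
    rw [← neg_div] at h3
    exact h3
  · have hx' := hp' x hx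
    have hN : 0 < quartic B c s x / R ^ 4 := by positivity
    unfold pFunction horGradNorm
    rw [Real.rpow_two, Real.rpow_two, Real.rpow_two,
      Real.sq_sqrt (Finset.sum_nonneg fun i _ => sq_nonneg _)]
    simp only [X_eq_CouA]
    rw [G.e.sum_sq_inner_right, hv x hx', Prod.smul_fst, norm_smul, mul_pow, norm_w_QPot hA,
      Real.norm_eq_abs, sq_abs, ← Real.rpow_mul hN.le, mul_pow, ← Real.rpow_natCast (_ ^ _) 2,
      ← Real.rpow_mul hN.le]
    have h1 : -(homDim m k - 2) / 4 * (2 * (homDim m k + 2 - 2) / (homDim m k - 2)) =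
        (-(homDim m k - 2) / 4 - 1) * (2 : ℕ) + 1 := by
      field_simp
      push_cast
      ring
    rw [h1, Real.rpow_add_one hN.ne']
    have h2 := (Real.rpow_pos_of_pos hN ((-(homDim m k - 2) / 4 - 1) * (2 : ℕ))).ne'
    unfold cConst
    field_simp
    ring

end Pool.Agent.MP_1048c2_an.Cl

end

section
/-!
The sublevel sets of the horizontal part of the quartic, without the origin and the zero set, are
connected.
-/

set_option autoImplicit false
set_option linter.unusedSectionVars false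

namespace Pool.Agent.MP_1048c2_an.Cl

open Filter Topology Set Module
open scoped InnerProductSpace

variable {m k : ℕ} {H V : Type} [NormedAddCommGroup H] [InnerProductSpace ℝ H]
  [NormedAddCommGroup V] [InnerProductSpace ℝ V] [FiniteDimensional ℝ H] [FiniteDimensional ℝ V]
  (G : HeisenbergType m k H V)

theorem sc_QConn {E : Type} [NormedAddCommGroup E] [NormedSpace ℝ E] {w : E} (hw : w ≠ 0) {a : ℝ}
    (ha : 0 < a) : ‖(√a / ‖w‖) • w‖ ^ 2 = a := by
  have h : 0 < ‖w‖ := norm_pos_iff.2 hw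
  rw [norm_smul, Real.norm_of_nonneg (by positivity), div_mul_cancel₀ _ h.ne', Real.sq_sqrt ha.le]

theorem two_QConn {E F : Type} [NormedAddCommGroup E] [NormedSpace ℝ E] [NormedAddCommGroup F]
    [NormedSpace ℝ F] (hE : 1 < Module.rank ℝ E) (hF : 1 < Module.rank ℝ F) {C : Set (ℝ × ℝ)}
    (hC : IsPreconnected C) (hpos : ∀ y ∈ C, 0 < y.1 ∧ 0 < y.2) :
    IsPreconnected {x : E × F | (‖x.1‖ ^ 2, ‖x.2‖ ^ 2) ∈ C} := by
  have h := ((isConnected_compl_singleton_of_one_lt_rank hE 0).isPreconnected.prod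
    (isConnected_compl_singleton_of_one_lt_rank hF 0).isPreconnected).prod hC
  have hc : ContinuousOn (fun x : (E × F) × (ℝ × ℝ) =>
      ((√x.2.1 / ‖x.1.1‖) • x.1.1, (√x.2.2 / ‖x.1.2‖) • x.1.2))
      ((({0}ᶜ : Set E) ×ˢ ({0}ᶜ : Set F)) ×ˢ C) := by
    refine ContinuousOn.prodMk (ContinuousOn.smul (ContinuousOn.div (by fun_prop) (by fun_prop) ?_)
      (by fun_prop)) (ContinuousOn.smul (ContinuousOn.div (by fun_prop) (by fun_prop) ?_)
      (by fun_prop))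
    · exact fun x hx => norm_ne_zero_iff.2 hx.1.1
    · exact fun x hx => norm_ne_zero_iff.2 hx.1.2
  convert h.image _ hc using 1
  ext x
  constructor
  · intro hx
    obtain ⟨h1, h2⟩ := hpos _ hx
    have h3 : ‖x.1‖ ≠ 0 := fun h0 => by simp [h0] at h1
    have h4 : ‖x.2‖ ≠ 0 := fun h0 => by simp [h0] at h2
    refine ⟨(x, (‖x.1‖ ^ 2, ‖x.2‖ ^ 2)), ⟨⟨norm_ne_zero_iff.1 h3, norm_ne_zero_iff.1 h4⟩, hx⟩, ?_⟩
    simp only [Real.sqrt_sq (norm_nonneg _), div_self h3, div_self h4, one_smul]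
  · rintro ⟨y, ⟨⟨h1, h2⟩, h3⟩, rfl⟩
    change (_, _) ∈ C
    rw [sc_QConn h1 (hpos _ h3).1, sc_QConn h2 (hpos _ h3).2]
    exact h3

theorem cvx_QConn (β c δ L : ℝ) :
    Convex ℝ {y : ℝ × ℝ | 0 < y.1 ∧ 0 < y.2 ∧ (y.1 + β * y.2 - c) ^ 2 + δ * y.2 < L} := by
  intro x hx y hy a b ha hb hab
  refine ⟨convex_Ioi (𝕜 := ℝ) (0 : ℝ) hx.1 hy.1 ha hb hab,
    convex_Ioi (𝕜 := ℝ) (0 : ℝ) hx.2.1 hy.2.1 ha hb hab, ?_⟩
  have h : a * ((x.1 + β * x.2 - c) ^ 2 + δ * x.2) + b * ((y.1 + β * y.2 - c) ^ 2 + δ * y.2) < L :=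
    convex_Iio (𝕜 := ℝ) L hx.2.2 hy.2.2 ha hb hab
  refine lt_of_le_of_lt ?_ h
  simp only [Prod.fst_add, Prod.snd_add, Prod.smul_fst, Prod.smul_snd, smul_eq_mul]
  obtain rfl : b = 1 - a := by linarith
  have h1 := mul_nonneg (mul_nonneg ha hb) (sq_nonneg (x.1 + β * x.2 - (y.1 + β * y.2)))
  nlinarith [h1]

theorem rank_QConn (hk : 0 < k) (K : Submodule ℝ H) (hK : ∀ σ, ∀ z ∈ K, G.J σ z ∈ K) {w : H}
    (hw : w ∈ K) (h0 : w ≠ 0) : 1 < Module.rank ℝ K := by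
  by_contra h
  obtain ⟨v, hv⟩ := rank_le_one_iff.1 (not_lt.1 h)
  obtain ⟨r, hr⟩ := hv ⟨w, hw⟩
  obtain ⟨s, hs⟩ := hv ⟨_, hK (G.ε ⟨0, hk⟩) w hw⟩
  have hr' : r • (v : H) = w := congrArg Subtype.val hr
  have hs' : s • (v : H) = G.J (G.ε ⟨0, hk⟩) w := congrArg Subtype.val hs
  have h1 : ⟪G.J (G.ε ⟨0, hk⟩) w, w⟫_ℝ = 0 := by
    rw [G.inner_J, G.bracket_self, inner_zero_right]
  have h2 : G.J (G.ε ⟨0, hk⟩) w ≠ 0 := by
    intro h3
    have h4 := G.J_J (G.ε ⟨0, hk⟩) w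
    rw [h3, ← JL_apply, map_zero, G.ε.orthonormal.1] at h4
    exact h0 (by simpa using h4)
  rw [← hs'] at h1 h2
  rw [← hr'] at h1 h0
  rw [real_inner_smul_left, real_inner_smul_right, real_inner_self_eq_norm_sq] at h1
  exact mul_ne_zero (left_ne_zero_of_smul h2) (mul_ne_zero (left_ne_zero_of_smul h0)
    (pow_ne_zero 2 (norm_ne_zero_iff.2 (right_ne_zero_of_smul h0)))) h1

/-- the eigenspace of `B` -/
def eig_QConn (B : H →L[ℝ] H) (t : ℝ) : Submodule ℝ H where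
  carrier := {z | B z = t • z}
  add_mem' := fun {a b} ha hb => by
    change B (a + b) = t • (a + b)
    rw [map_add, smul_add, show B a = t • a from ha, show B b = t • b from hb]
  zero_mem' := by
    change B 0 = t • (0 : H)
    rw [map_zero, smul_zero]
  smul_mem' := fun r a ha => by
    change B (r • a) = t • r • a
    rw [map_smul, show B a = t • a from ha, smul_comm]

theorem proj_QConn {B : H →L[ℝ] H} {c t : ℝ} (hB : ∀ z, B (B z) = c ^ 2 • z) (ht : t * t = c ^ 2)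
    (w : H) : B w + t • w ∈ eig_QConn B t := by
  change B (B w + t • w) = t • (B w + t • w)
  rw [map_add, map_smul, hB, smul_add, smul_smul, ht, add_comm]

theorem eigrank_QConn (hk : 0 < k) {B : H →L[ℝ] H} {c t : ℝ} (hA : Admissible G B c)
    (ht : t * t = c ^ 2) (h0 : t ≠ 0) : 1 < Module.rank ℝ (eig_QConn B t) := by
  have h1 : ∃ w : H, B w + t • w ≠ 0 := by
    by_contra h
    push Not at h
    have h2 := hA.2.2.2.1
    have h3 : ∀ i, ⟪G.e i, B (G.e i)⟫_ℝ = -t := by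
      intro i
      rw [eq_neg_of_add_eq_zero_left (h (G.e i)), inner_neg_right, real_inner_smul_right,
        real_inner_self_eq_norm_sq, G.e.orthonormal.1]
      ring
    simp only [h3, Finset.sum_const, Finset.card_univ, Fintype.card_fin, nsmul_eq_mul] at h2
    have h4 : (0 : ℝ) < m := by exact_mod_cast m_pos G hk
    exact mul_ne_zero h4.ne' (neg_ne_zero.2 h0) h2
  obtain ⟨w, hw⟩ := h1
  refine rank_QConn G hk _ (fun σ z hz => ?_) (proj_QConn hA.2.2.2.2 ht w) hw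
  change B (G.J σ z) = t • G.J σ z
  rw [hA.2.2.1, show B z = t • z from hz, ← JL_apply, map_smul, JL_apply]

theorem n0_QConn {B : H →L[ℝ] H} {c : ℝ} (hA : Admissible G B c) (hc : c ≠ 0) {p q : H}
    (hp : B p = c • p) (hq : B q = (-c) • q) :
    n0 B c (p + q) = (‖p‖ ^ 2 + 1 * ‖q‖ ^ 2 - c) ^ 2 + 4 * c * ‖q‖ ^ 2 := by
  have h1 := hA.2.1 p q
  rw [hp, hq, real_inner_smul_left, real_inner_smul_right] at h1
  have h2 : ⟪p, q⟫_ℝ = 0 := by
    have h3 : c * ⟪p, q⟫_ℝ = 0 := by linarith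
    exact (mul_eq_zero.1 h3).resolve_left hc
  have h3 : ‖p + q‖ ^ 4 = (‖p‖ ^ 2 + ‖q‖ ^ 2) ^ 2 := by
    rw [show (4 : ℕ) = 2 * 2 from rfl, pow_mul, norm_add_sq_real, h2]
    ring
  unfold n0
  rw [h3, map_add, hp, hq]
  simp only [inner_add_left, inner_add_right, real_inner_smul_left, real_inner_self_eq_norm_sq,
    real_inner_comm p q, h2]
  ring

theorem qconn_st (G : HeisenbergType m k H V) : QConnSt G := by
  intro B c L hk hA
  rcases hA.1.eq_or_lt with hc | hc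
  · subst hc
    have hB : ∀ z, n0 B 0 z = (‖z‖ ^ 2 + 0 * ‖z‖ ^ 2 - 0) ^ 2 + 0 * ‖z‖ ^ 2 := by
      intro z
      have h1 := hA.2.1 z (B z)
      rw [hA.2.2.2.2, real_inner_smul_right, zero_pow two_ne_zero, zero_mul,
        inner_self_eq_zero] at h1
      unfold n0
      rw [h1, inner_zero_left]
      ring
    have hr : 1 < Module.rank ℝ H := by
      have h1 := m_pos G hk
      obtain ⟨j, hj⟩ := m_even G hk
      rw [← finrank_eq_rank, finrank_H G]
      exact_mod_cast (by omega : 1 < m)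
    have h := (two_QConn hr hr (cvx_QConn 0 0 0 L).isPreconnected
      fun y hy => ⟨hy.1, hy.2.1⟩).image _ continuous_fst.continuousOn
    convert h using 1
    ext z
    constructor
    · rintro ⟨h1, -, h3⟩
      have h4 : 0 < ‖z‖ ^ 2 := pow_pos (norm_pos_iff.2 h1) 2
      rw [hB] at h3
      exact ⟨(z, z), ⟨h4, h4, h3⟩, rfl⟩
    · rintro ⟨x, ⟨h1, -, h3⟩, rfl⟩
      have h4 : 0 < ‖x.1‖ ^ 2 := h1
      have h5 : (‖x.1‖ ^ 2 + 0 * ‖x.2‖ ^ 2 - 0) ^ 2 + 0 * ‖x.2‖ ^ 2 < L := h3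
      refine ⟨fun h0 => by simp [h0] at h4, ?_, ?_⟩
      · rw [hB]
        nlinarith [pow_pos h4 2]
      · rw [hB]
        linarith
  · have hp := eigrank_QConn G hk hA (t := c) (by ring) hc.ne'
    have hm := eigrank_QConn G hk hA (t := -c) (by ring) (neg_ne_zero.2 hc.ne')
    have hψ : Continuous fun x : eig_QConn B c × eig_QConn B (-c) => (x.1 : H) + x.2 := by fun_prop
    have h := (two_QConn hp hm (cvx_QConn 1 c (4 * c) L).isPreconnected
      fun y hy => ⟨hy.1, hy.2.1⟩).image _ hψ.continuousOn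
    refine h.subset_closure ?_ ?_
    · rintro _ ⟨x, ⟨h1, h2, h3⟩, rfl⟩
      have h4 := n0_QConn G hA hc.ne' x.1.2 x.2.2
      have h5 : 0 < ‖(x.2 : H)‖ ^ 2 := h2
      refine ⟨fun h0 => ?_, by rw [h4]; positivity, by rw [h4]; exact h3⟩
      have h6 : (2 * c) • (x.2 : H) = c • ((x.1 : H) + x.2) - B ((x.1 : H) + x.2) := by
        rw [map_add, show B x.1 = c • (x.1 : H) from x.1.2, show B x.2 = (-c) • (x.2 : H) from x.2.2]
        module
      have h7 : (x.1 : H) + x.2 = 0 := h0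
      rw [h7, map_zero, smul_zero, sub_zero] at h6
      have h8 : (x.2 : H) = 0 := (smul_eq_zero.1 h6).resolve_left (by positivity)
      simp [h8] at h5
    · rintro z ⟨-, -, hz⟩
      have := (rank_pos_iff_nontrivial (R := ℝ)).1 (zero_lt_one.trans hp)
      have := (rank_pos_iff_nontrivial (R := ℝ)).1 (zero_lt_one.trans hm)
      have hd := ((dense_compl_singleton (0 : eig_QConn B c)).prod
        (dense_compl_singleton (0 : eig_QConn B (-c)))).open_subset_closure_inter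
        (isOpen_lt ((n0_cont B c).comp hψ) (continuous_const (y := L)))
      let x : eig_QConn B c × eig_QConn B (-c) :=
        ((2 * c)⁻¹ • ⟨_, proj_QConn hA.2.2.2.2 (t := c) (by ring) z⟩,
          (-(2 * c)⁻¹) • ⟨_, proj_QConn hA.2.2.2.2 (t := -c) (by ring) z⟩)
      have hx : (x.1 : H) + x.2 = z := by
        change (2 * c)⁻¹ • (B z + c • z) + (-(2 * c)⁻¹) • (B z + (-c) • z) = z
        have h1 : (2 * c)⁻¹ • (B z + c • z) + (-(2 * c)⁻¹) • (B z + (-c) • z) =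
            ((2 * c)⁻¹ * (2 * c)) • z := by module
        rw [h1, inv_mul_cancel₀ (by positivity), one_smul]
      have h1 := hd (a := x) (by
        change n0 B c ((x.1 : H) + x.2) < L
        rwa [hx])
      rw [← hx]
      refine map_mem_closure
        (f := fun x : eig_QConn B c × eig_QConn B (-c) => (x.1 : H) + x.2) hψ h1 ?_
      rintro y ⟨h2, h3, h4⟩
      refine mem_image_of_mem _ ⟨pow_pos (norm_pos_iff.2 h3) 2, pow_pos (norm_pos_iff.2 h4) 2, ?_⟩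
      have h5 : n0 B c ((y.1 : H) + y.2) < L := h2
      rw [n0_QConn G hA hc.ne' y.1.2 y.2.2] at h5
      exact h5

end Pool.Agent.MP_1048c2_an.Cl

end

section
/-!
The topology of the level sets of the quartic.
-/

set_option autoImplicit false
set_option linter.unusedSectionVars false

namespace Pool.Agent.MP_1048c2_an.Cl

open Filter Topology Set Module
open scoped InnerProductSpace

variable {m k : ℕ} {H V : Type} [NormedAddCommGroup H] [InnerProductSpace ℝ H]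
  [NormedAddCommGroup V] [InnerProductSpace ℝ V] [FiniteDimensional ℝ H] [FiniteDimensional ℝ V]

theorem low_QTop {G : HeisenbergType m k H V} {B : H →L[ℝ] H} {c : ℝ} (hB : Admissible G B c)
    (z : H) : (‖z‖ ^ 2 - c) ^ 2 ≤ n0 B c z := by
  obtain ⟨hc, hs, -, -, h2⟩ := hB
  have h1 : ‖B z‖ ^ 2 = (c * ‖z‖) ^ 2 := by
    rw [← real_inner_self_eq_norm_sq, hs, h2, real_inner_smul_right, real_inner_self_eq_norm_sq,
      mul_pow]
  have h3 : ‖B z‖ = c * ‖z‖ := (pow_left_inj₀ (norm_nonneg _) (by positivity) two_ne_zero).1 h1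
  have h4 := real_inner_le_norm (B z) z
  rw [h3] at h4
  unfold n0
  nlinarith

theorem big_QTop {G : HeisenbergType m k H V} {B : H →L[ℝ] H} {c : ℝ} (hB : Admissible G B c)
    (L : ℝ) {z : H} (hz : c + |L| + 1 ≤ ‖z‖) : |L| + 1 ≤ n0 B c z := by
  have h1 := low_QTop hB z
  have h2 := hB.1
  have h3 := abs_nonneg L
  have h4 : |L| + 1 ≤ ‖z‖ ^ 2 - c := by nlinarith
  nlinarith

theorem dir_QTop [Nontrivial V] (s σ₀ : V) :
    ∃ v : V, ∀ t : ℝ, 0 ≤ t → ‖s - σ₀‖ ^ 2 + t ^ 2 ≤ ‖s + t • v - σ₀‖ ^ 2 := by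
  obtain ⟨u, hu⟩ := exists_norm_eq V zero_le_one
  have key : ∀ v : V, ‖v‖ = 1 → 0 ≤ ⟪s - σ₀, v⟫_ℝ → ∀ t : ℝ, 0 ≤ t →
      ‖s - σ₀‖ ^ 2 + t ^ 2 ≤ ‖s + t • v - σ₀‖ ^ 2 := fun v hv h t ht => by
    rw [add_sub_right_comm, norm_add_sq_real, real_inner_smul_right, norm_smul, hv, mul_one,
      Real.norm_eq_abs, sq_abs]
    nlinarith [mul_nonneg ht h]
  rcases le_total 0 ⟪s - σ₀, u⟫_ℝ with h | h
  · exact ⟨u, key u hu h⟩
  · exact ⟨-u, key (-u) (by rw [norm_neg, hu]) (by rw [inner_neg_right]; linarith)⟩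

theorem zero_QTop {G : HeisenbergType m k H V} {B : H →L[ℝ] H} {c : ℝ} (hk : 0 < k)
    (hB : Admissible G B c) : ∃ z : H, n0 B c z = 0 := by
  obtain ⟨hc, -, -, h2, hs⟩ := hB
  rcases hc.eq_or_lt with rfl | hc'
  · exact ⟨0, by simp [n0]⟩
  have h1 : ∃ w : H, B w + c • w ≠ 0 := by
    by_contra h
    push Not at h
    have h3 : ∀ i, ⟪G.e i, B (G.e i)⟫_ℝ = -c := by
      intro i
      rw [eq_neg_of_add_eq_zero_left (h (G.e i)), inner_neg_right, real_inner_smul_right,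
        real_inner_self_eq_norm_sq, G.e.orthonormal.1]
      ring
    simp only [h3, Finset.sum_const, Finset.card_univ, Fintype.card_fin, nsmul_eq_mul] at h2
    have h4 : (0 : ℝ) < m := by exact_mod_cast m_pos G hk
    nlinarith [mul_pos h4 hc']
  obtain ⟨w, hw⟩ := h1
  have h6 : B (B w + c • w) = c • (B w + c • w) := by
    rw [map_add, map_smul, hs, smul_add, smul_smul, sq, add_comm]
  have h7 : 0 < ‖B w + c • w‖ := norm_pos_iff.2 hw
  obtain ⟨z, h8, h9⟩ : ∃ z : H, ‖z‖ = √c ∧ B z = c • z := by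
    refine ⟨(√c / ‖B w + c • w‖) • (B w + c • w), ?_, ?_⟩
    · rw [norm_smul, Real.norm_of_nonneg (by positivity)]
      field_simp
    · rw [map_smul, h6, smul_comm]
  have h10 : ‖z‖ ^ 2 = c := by rw [h8, Real.sq_sqrt hc]
  refine ⟨z, ?_⟩
  rw [n0, h9, real_inner_smul_left, real_inner_self_eq_norm_sq,
    show ‖z‖ ^ 4 = (‖z‖ ^ 2) ^ 2 by ring, h10]
  ring

theorem qtop_st (G : HeisenbergType m k H V) (h : QConnSt G) : QTopSt G := by
  intro B c σ₀ L hk hB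
  have nV : Nontrivial V := finrank_pos_iff.1 ((finrank_V G).symm ▸ hk)
  have nH : Nontrivial H := finrank_pos_iff.1 ((finrank_H G).symm ▸ m_pos G hk)
  have hc := hB.1
  have hL := abs_nonneg L
  have hL' := le_abs_self L
  have hA : IsPreconnected {z : H | z ≠ 0 ∧ 0 < n0 B c z} := by
    refine isPreconnected_of_forall_pair fun x hx y hy =>
      ⟨{z : H | z ≠ 0 ∧ 0 < n0 B c z ∧ n0 B c z < max (n0 B c x) (n0 B c y) + 1},
      fun z hz => ⟨hz.1, hz.2.1⟩, ⟨hx.1, hx.2, ?_⟩, ⟨hy.1, hy.2, ?_⟩, h B c (max (n0 B c x) (n0 B c y) + 1) hk hB⟩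
    · linarith [le_max_left (n0 B c x) (n0 B c y)]
    · linarith [le_max_right (n0 B c x) (n0 B c y)]
  refine ⟨?_, ?_, ?_, ?_, ?_, ?_⟩
  · obtain ⟨zs, hzs⟩ := exists_norm_eq H (c := c + |L| + 1) (by linarith)
    have b1 := big_QTop hB L hzs.ge
    have b2 : zs ≠ 0 ∧ 0 < n0 B c zs := ⟨norm_pos_iff.1 (by linarith), by linarith⟩
    refine isPreconnected_of_forall (zs, σ₀) fun x hx => ?_
    obtain ⟨v, hv⟩ := dir_QTop x.2 σ₀
    have hr : IsPreconnected ((fun t : ℝ => ((x.1, x.2 + t • v) : H × V)) '' Ici 0) :=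
      isPreconnected_Ici.image _ (by fun_prop)
    have hs : IsPreconnected ({z : H | z ≠ 0 ∧ 0 < n0 B c z} ×ˢ {x.2 + (|L| + 1) • v}) :=
      hA.prod isPreconnected_singleton
    have hf : IsPreconnected (({zs} : Set H) ×ˢ (univ : Set V)) :=
      isPreconnected_singleton.prod isPreconnected_univ
    have hp := (hr.union (x.1, x.2 + (|L| + 1) • v)
      (by exact ⟨|L| + 1, by simp only [mem_Ici]; linarith, rfl⟩) (by exact ⟨hx.1, rfl⟩) hs).union
      (zs, x.2 + (|L| + 1) • v) (by exact Or.inr ⟨b2, rfl⟩) (by exact ⟨rfl, mem_univ _⟩) hf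
    refine ⟨_, ?_, ?_, ?_, hp⟩
    rotate_left
    · exact Or.inr ⟨rfl, mem_univ _⟩
    · exact Or.inl (Or.inl ⟨0, le_refl (0 : ℝ), by simp⟩)
    rintro y ((⟨t, ht, rfl⟩ | ⟨y1, y2⟩) | ⟨y1, -⟩)
    · refine ⟨hx.1, hx.2.trans_le ?_⟩
      have := hv t ht
      simp only [quartic_eq]
      nlinarith [sq_nonneg t]
    · refine ⟨y1, ?_⟩
      have := hv (|L| + 1) (by linarith)
      rw [quartic_eq, show y.2 = x.2 + (|L| + 1) • v from y2]
      nlinarith [y1.2, sq_nonneg ‖x.2 - σ₀‖]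
    · have y2 : y.1 = zs := y1
      refine ⟨y2 ▸ b2, ?_⟩
      rw [quartic_eq, y2]
      nlinarith [sq_nonneg ‖y.2 - σ₀‖]
  · have hs : IsPreconnected ({z : H | z ≠ 0 ∧ 0 < n0 B c z ∧ n0 B c z < L} ×ˢ {σ₀}) :=
      (h B c L hk hB).prod isPreconnected_singleton
    have hg : ∀ x : H × V, IsPreconnected (({x.1} : Set H) ×ˢ Metric.closedBall σ₀ ‖x.2 - σ₀‖) :=
      fun x => isPreconnected_singleton.prod (convex_closedBall _ _).isPreconnected
    have hm : ∀ x : H × V, (x.1 ≠ 0 ∧ 0 < n0 B c x.1) ∧ quartic B c σ₀ x < L →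
        (x.1, σ₀) ∈ {z : H | z ≠ 0 ∧ 0 < n0 B c z ∧ n0 B c z < L} ×ˢ ({σ₀} : Set V) :=
      fun x hx => ⟨⟨hx.1.1, hx.1.2, by
        have := hx.2
        rw [quartic_eq] at this
        nlinarith [sq_nonneg ‖x.2 - σ₀‖]⟩, rfl⟩
    have hu : ∀ x : H × V, (x.1 ≠ 0 ∧ 0 < n0 B c x.1) ∧ quartic B c σ₀ x < L →
        ∀ y ∈ ({x.1} : Set H) ×ˢ Metric.closedBall σ₀ ‖x.2 - σ₀‖,
          (y.1 ≠ 0 ∧ 0 < n0 B c y.1) ∧ quartic B c σ₀ y < L := fun x hx y hy => by
      have y1 : y.1 = x.1 := hy.1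
      have y2 := pow_le_pow_left₀ (norm_nonneg _) (mem_closedBall_iff_norm.1 hy.2) 2
      refine ⟨y1 ▸ hx.1, lt_of_le_of_lt ?_ hx.2⟩
      rw [quartic_eq, quartic_eq, y1]
      linarith
    refine isPreconnected_of_forall_pair fun x hx y hy => ?_
    have hp := ((hg x).union (x.1, σ₀)
      (by exact ⟨rfl, Metric.mem_closedBall_self (norm_nonneg _)⟩) (hm x hx) hs).union (y.1, σ₀)
      (Or.inr (hm y hy)) (by exact ⟨rfl, Metric.mem_closedBall_self (norm_nonneg _)⟩) (hg y)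
    refine ⟨_, ?_, ?_, ?_, hp⟩
    rotate_left
    · exact Or.inl (Or.inl ⟨rfl, mem_closedBall_iff_norm.2 le_rfl⟩)
    · exact Or.inr ⟨rfl, mem_closedBall_iff_norm.2 le_rfl⟩
    rintro w ((hw | ⟨w1, w2⟩) | hw)
    · exact hu x hx w hw
    · refine ⟨⟨w1.1, w1.2.1⟩, ?_⟩
      rw [quartic_eq, show w.2 = σ₀ from w2]
      simpa using w1.2.2
    · exact hu y hy w hw
  · have d1 : Dense ({0}ᶜ : Set H) := dense_compl_singleton 0
    have d2 : Dense (Metric.sphere (0 : H) √c)ᶜ :=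
      interior_eq_empty_iff_dense_compl.1 (interior_sphere' _ _)
    refine ((d1.inter_of_isOpen_left d2 isOpen_compl_singleton).preimage
      isOpenMap_fst).mono fun x hx => ⟨hx.1, lt_of_lt_of_le ?_ (low_QTop hB x.1)⟩
    refine sq_pos_of_ne_zero fun h0 => hx.2 ?_
    rw [mem_sphere_zero_iff_norm, ← sub_eq_zero.1 h0, Real.sqrt_sq (norm_nonneg _)]
  · obtain ⟨z, hz⟩ := zero_QTop hk hB
    exact ⟨(z, σ₀), by simp [quartic_eq, hz]⟩
  · intro x hx
    obtain ⟨v, hv⟩ := dir_QTop x.2 σ₀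
    have ht : Tendsto (fun t : ℝ => ((x.1, x.2 + t • v) : H × V)) (𝓝[>] 0) (𝓝 x) := by
      have hc' : Continuous fun t : ℝ => ((x.1, x.2 + t • v) : H × V) := by fun_prop
      simpa using (hc'.tendsto 0).mono_left nhdsWithin_le_nhds
    refine mem_closure_of_tendsto ht (eventually_mem_nhdsWithin.mono fun t ht => ?_)
    have h1 : (0 : ℝ) < t := ht
    have h2 := hv t h1.le
    have h3 : L ≤ quartic B c σ₀ x := hx
    simp only [quartic_eq, mem_ofPred_eq] at h3 ⊢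
    nlinarith [mul_pos h1 h1]
  · refine ((Metric.isBounded_closedBall (x := (0 : H)) (r := c + |L| + 1)).prod
      (Metric.isBounded_closedBall (x := σ₀) (r := |L| + 1))).subset fun x hx => ?_
    have h1 : quartic B c σ₀ x < L := hx
    have h2 := (sq_nonneg _).trans (low_QTop hB x.1)
    rw [quartic_eq] at h1
    constructor
    · rw [mem_closedBall_zero_iff]
      by_contra h3
      have := big_QTop hB L (not_le.1 h3).le
      nlinarith [sq_nonneg ‖x.2 - σ₀‖]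
    · rw [mem_closedBall_iff_norm]
      by_contra h3
      have := not_le.1 h3
      nlinarith

end Pool.Agent.MP_1048c2_an.Cl

end

section
set_option autoImplicit false
set_option linter.unusedSectionVars false

namespace Pool.Agent.MP_1048c2_an.Cl

open Filter Topology Set Module
open scoped InnerProductSpace

variable {m k : ℕ} {H V : Type} [NormedAddCommGroup H] [InnerProductSpace ℝ H]
  [NormedAddCommGroup V] [InnerProductSpace ℝ V] [FiniteDimensional ℝ H] [FiniteDimensional ℝ V]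

theorem const_QThird {E : Type} [NormedAddCommGroup E] [NormedSpace ℝ E] {W : Set (H × V)}
    {f : H × V → E} {x : H × V} (hW : IsOpen W) (hx : x ∈ W)
    (hf : ∀ y ∈ W, HasFDerivAt f (0 : H × V →L[ℝ] E) y) : ∀ᶠ y in 𝓝 x, f y = f x := by
  obtain ⟨r, hr, hb⟩ := Metric.isOpen_iff.1 hW x hx
  filter_upwards [Metric.ball_mem_nhds x hr] with y hy
  exact Metric.isOpen_ball.is_const_of_fderiv_eq_zero (𝕜 := ℝ) (convex_ball x r).isPreconnected
    (fun z hz => (hf z (hb hz)).differentiableAt.differentiableWithinAt)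
    (fun z hz => (hf z (hb hz)).fderiv) hy (Metric.mem_ball_self hr)

theorem key_QThird {G : HeisenbergType m k H V} {W : Set (H × V)} {N : H × V → ℝ}
    (h : Phys G W N) {x : H × V} (hx : x ∈ W) :
    HasFDerivAt (fderiv ℝ (Fz G N)) (0 : H × V →L[ℝ] H × V →L[ℝ] H) x ∧ ∀ μ a,
      fderiv ℝ (Fz G N) x (JL G μ a, 0) = JL G μ (fderiv ℝ (Fz G N) x (a, 0)) := by
  have hc := (smF_Third h).contDiffAt (h.op.mem_nhds hx)
  have hD : HasFDerivAt (fderiv ℝ (Fz G N)) (fderiv ℝ (fderiv ℝ (Fz G N)) x) x :=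
    ((hc.fderiv_right (m := 1) (by norm_num)).differentiableAt (by norm_num)).hasFDerivAt
  set D2 := fderiv ℝ (fderiv ℝ (Fz G N)) x with hD2
  have hD' : ∀ z : H, HasFDerivAt (fun y => fderiv ℝ (Fz G N) y (z, 0)) (D2.flip (z, 0)) x :=
    fun z => (hD.clm_apply (hasFDerivAt_const ((z, 0) : H × V) x)).congr_fderiv (by ext <;> simp)
  have s1 : ∀ a b : H, D2 (a, 0) (b, 0) = D2 (b, 0) (a, 0) := fun a b =>
    hc.isSymmSndFDerivAt (by simp) _ _
  have s2 : ∀ a b c : H, ⟪D2 (a, 0) (b, 0), c⟫_ℝ = ⟪D2 (a, 0) (c, 0), b⟫_ℝ := by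
    intro a b c
    have := zero_Third (f := fun y => ⟪fderiv ℝ (Fz G N) y (b, 0), c⟫_ℝ -
      ⟪fderiv ℝ (Fz G N) y (c, 0), b⟫_ℝ) h.op hx
      (fun y hy => sub_eq_zero.2 (sym_Third h hy (b, 0) c))
      (((hD' b).inner ℝ (hasFDerivAt_const c x)).sub ((hD' c).inner ℝ (hasFDerivAt_const b x)))
      (a, 0)
    simpa [sub_eq_zero] using this
  set S : H →L[ℝ] H := (fderiv ℝ (Fz G N) x).comp (ContinuousLinearMap.inl ℝ H V) with hS
  have hS' : ∀ z, S z = fderiv ℝ (Fz G N) x (z, 0) := fun z => rfl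
  have sS : ∀ a b, ⟪S a, b⟫_ℝ = ⟪a, S b⟫_ℝ := fun a b => by
    rw [hS', hS', sym_Third h hx, real_inner_comm]
  have s3 : ∀ a b c : H, ⟪D2 (a, 0) (S b, 0), c⟫_ℝ = -⟪D2 (a, 0) (b, 0), S c⟫_ℝ := by
    intro a b c
    have := zero_Third (f := fun y => fderiv ℝ (Fz G N) y (fderiv ℝ (Fz G N) y (b, 0), 0) -
      psi G N y • b) h.op hx (fun y hy => sub_eq_zero.2 (h.p3 y hy b))
      ((hD.clm_apply ((hD' b).prodMk (hasFDerivAt_const (0 : V) x))).sub
        ((dpsi_Third h hx).smul_const b)) (a, 0)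
    have e : S (D2 (a, 0) (b, 0)) + D2 (a, 0) (S b, 0) = 0 := by simpa [hS'] using this
    rw [← sS, ← inner_neg_left, eq_neg_of_add_eq_zero_right e]
  have s4 : ∀ a b c : H, ⟪D2 (a, 0) (S b, 0), c⟫_ℝ = 0 := by
    intro a b c
    have e1 := s3 a b c
    have e2 := s3 b c a
    have e3 := s3 c a b
    rw [s1 a b, s2 b a (S c)] at e1
    rw [s1 b c, s2 c b (S a)] at e2
    rw [s1 c a, s2 a c (S b)] at e3
    linarith
  have hp := h.pos x hx
  have s5 : ∀ a b : H, D2 (a, 0) (b, 0) = 0 := fun a b => ext_inner_right ℝ fun c => by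
    have := s4 a ((psi G N x)⁻¹ • S b) c
    rw [map_smul, hS', hS', h.p3 x hx, inv_smul_smul₀ hp.ne'] at this
    simpa using this
  have s6 : ∀ μ a, S (JL G μ a) = JL G μ (S a) := fun μ a => ext_inner_right ℝ fun b => by
    have := zero_Third (f := fun y => ⟪JL G μ y.1, fderiv ℝ (Fz G N) y (a, 0)⟫_ℝ +
      ⟪JL G μ a, Fz G N y⟫_ℝ) h.op hx (fun y hy => e2b_Third h μ a hy)
      (((((JL G μ).hasFDerivAt).comp x (hasFDerivAt_fst (p := x))).inner ℝ (hD' a)).add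
        ((hasFDerivAt_const (JL G μ a) x).inner ℝ (dF_Third h hx))) (b, 0)
    have e : ⟪JL G μ b, S a⟫_ℝ + ⟪JL G μ a, S b⟫_ℝ = 0 := by simpa [hS', s5] using this
    rw [sS, J_skew G μ (S a), real_inner_comm (JL G μ b)]
    linarith
  refine ⟨hD.congr_fderiv ?_, s6⟩
  have s7 : ∀ v μ, D2 v (0, μ) = 0 := fun v μ =>
    zero_Third (f := fun y => fderiv ℝ (Fz G N) y (0, μ)) (f' := D2.flip (0, μ)) h.op hx
      (fun y hy => ext_inner_right ℝ fun z => by
        rw [sym_Third h hy]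
        simp)
      ((hD.clm_apply (hasFDerivAt_const ((0, μ) : H × V) x)).congr_fderiv (by ext <;> simp)) v
  have s8 : ∀ v w, D2 v w = D2 w v := fun v w => hc.isSymmSndFDerivAt (by simp) _ _
  have s9 : ∀ w : H × V, w = (w.1, 0) + (0, w.2) := fun w => by simp
  refine ContinuousLinearMap.ext fun v => ContinuousLinearMap.ext fun w => ?_
  rw [s9 w, map_add, s7, s8, s9 v, map_add, s7, s5]
  simp

theorem qthird_st (G : HeisenbergType m k H V) : QThirdSt G := by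
  intro W N h x hx
  set S : H →L[ℝ] H := (fderiv ℝ (Fz G N) x).comp (ContinuousLinearMap.inl ℝ H V) with hS
  have hS' : ∀ z, S z = fderiv ℝ (Fz G N) x (z, 0) := fun z => rfl
  have hp := h.pos x hx
  have hc : (√(psi G N x) / 4) ^ 2 = psi G N x / 16 := by
    rw [div_pow, Real.sq_sqrt hp.le]; norm_num
  refine ⟨(-(1 / 4) : ℝ) • S, √(psi G N x) / 4, x.2 - (1 / 32 : ℝ) • la G N x,
    ⟨by positivity, fun a b => ?_, fun μ a => ?_, ?_, fun a => ?_⟩, ?_⟩
  · simp only [_root_.smul_apply, real_inner_smul_left, real_inner_smul_right]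
    rw [hS', hS', sym_Third h hx, real_inner_comm]
  · simp only [_root_.smul_apply, ← JL_apply, map_smul, hS', (key_QThird h hx).2]
  · simp only [_root_.smul_apply, real_inner_smul_right, ← Finset.mul_sum, hS', h.tr x hx,
      mul_zero]
  · simp only [_root_.smul_apply, map_smul]
    rw [hS', hS', h.p3 x hx, smul_smul, smul_smul, hc]
    congr 1
    ring
  · filter_upwards [h.op.mem_nhds hx, const_QThird (E := H × V →L[ℝ] H)
      (f := fderiv ℝ (Fz G N)) h.op hx fun y hy => (key_QThird h hy).1,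
      const_QThird h.op hx fun y hy => dpsi_Third h hy,
      const_QThird (f := fun y => la G N y - (32 : ℝ) • y.2) h.op hx fun y hy =>
        ((dla_Third h hy).sub ((hasFDerivAt_snd (𝕜 := ℝ) (p := y)).const_smul (32 : ℝ))).congr_fderiv
          (ContinuousLinearMap.ext fun v => by simp [h.p1 y hy])] with y hy e1 e2 e3
    have e4 : Fz G N y = S y.1 := by rw [← h.p2 y hy, e1, hS']
    have e5 : la G N y = (32 : ℝ) • (y.2 - (x.2 - (1 / 32 : ℝ) • la G N x)) := by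
      rw [eq_add_of_sub_eq e3]
      module
    rw [quartic, hc, ← e2, psi, e4, e5, norm_smul, mul_pow, _root_.smul_apply,
      real_inner_smul_left, real_inner_comm]
    norm_num
    ring

end Pool.Agent.MP_1048c2_an.Cl

end

section
set_option autoImplicit false
set_option linter.unusedSectionVars false

namespace Pool.Agent.MP_1048c2_an.Cl

open Filter Topology Set Module
open scoped InnerProductSpace

variable {m k : ℕ} {H V : Type} [NormedAddCommGroup H] [InnerProductSpace ℝ H]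
  [NormedAddCommGroup V] [InnerProductSpace ℝ V] [FiniteDimensional ℝ H] [FiniteDimensional ℝ V]
  (G : HeisenbergType m k H V)

theorem quad_QGlue {E : Type} [NormedAddCommGroup E] [NormedSpace ℝ E]
    (β : E →L[ℝ] E →L[ℝ] ℝ) (l : E →L[ℝ] ℝ) (e : ℝ) (y : E) :
    fderiv ℝ (fderiv ℝ (fderiv ℝ fun x => β x x + l x + e)) y = 0 := by
  have h1 : (fderiv ℝ fun x => β x x + l x + e) = fun x => (β + β.flip) x + l := by
    funext x
    have := ((β.hasFDerivAt.clm_apply (hasFDerivAt_id x)).add l.hasFDerivAt).add_const e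
    refine (HasFDerivAt.fderiv this).trans ?_
    ext v
    simp [add_comm]
  have h2 : (fderiv ℝ fun x => (β + β.flip) x + l) = fun _ => β + β.flip := by
    funext x
    exact ((β + β.flip).hasFDerivAt.add_const l).fderiv
  rw [h1, h2]
  exact fderiv_const_apply _

theorem zero_QGlue {E F : Type} [NormedAddCommGroup E] [NormedSpace ℝ E] [NormedAddCommGroup F]
    [NormedSpace ℝ F] {U : Set E} (hU : IsOpen U) (hc : IsPreconnected U) {f : E → F}
    (hf : DifferentiableOn ℝ f U) (h : ∀ x ∈ U, fderiv ℝ f x = 0) {y : E} (hy : y ∈ U)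
    (h0 : f y = 0) : ∀ x ∈ U, f x = 0 := fun _ hx =>
  (hU.is_const_of_fderiv_eq_zero hc hf h hx hy).trans h0

theorem diff_QGlue (B₁ B : H →L[ℝ] H) (c₁ c : ℝ) (s₁ s₀ : V) :
    ∃ (β : (H × V) →L[ℝ] (H × V) →L[ℝ] ℝ) (l : (H × V) →L[ℝ] ℝ) (e : ℝ),
      ∀ x, quartic B₁ c₁ s₁ x - quartic B c s₀ x = β x x + l x + e := by
  refine ⟨(innerSL ℝ : H →L[ℝ] H →L[ℝ] ℝ).bilinearComp
      (((2 : ℝ) • (B - B₁)).comp (ContinuousLinearMap.fst ℝ H V)) (ContinuousLinearMap.fst ℝ H V),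
    (innerSL ℝ ((32 : ℝ) • (s₀ - s₁))).comp (ContinuousLinearMap.snd ℝ H V),
    c₁ ^ 2 - c ^ 2 + 16 * (‖s₁‖ ^ 2 - ‖s₀‖ ^ 2), fun x => ?_⟩
  change _ = ⟪(2 : ℝ) • (B x.1 - B₁ x.1), x.1⟫_ℝ + ⟪(32 : ℝ) • (s₀ - s₁), x.2⟫_ℝ + _
  simp only [quartic, norm_sub_sq_real, real_inner_smul_left, inner_sub_left]
  rw [real_inner_comm x.2 s₀, real_inner_comm x.2 s₁]
  ring

theorem glue_QGlue {E : Type} [NormedAddCommGroup E] [NormedSpace ℝ E] {U : Set E}
    (hU : IsOpen U) (hc : IsPreconnected U) {h : E → ℝ} (c3 : ContDiffOn ℝ 3 h U) {s : Set E}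
    (hs : s ⊆ U) (hd : ∀ x ∈ U, x ∈ closure s)
    (hq : ∀ y ∈ s, ∃ (β : E →L[ℝ] E →L[ℝ] ℝ) (l : E →L[ℝ] ℝ) (e : ℝ),
      h =ᶠ[𝓝 y] fun x => β x x + l x + e)
    {y₀ : E} (hy₀ : y₀ ∈ U) (e0 : h =ᶠ[𝓝 y₀] fun _ => 0) : ∀ x ∈ U, h x = 0 := by
  have c2 : ContDiffOn ℝ 2 (fderiv ℝ h) U := c3.fderiv_of_isOpen hU (by norm_num)
  have c1 : ContDiffOn ℝ 1 (fderiv ℝ (fderiv ℝ h)) U := c2.fderiv_of_isOpen hU (by norm_num)
  have c0 : ContinuousOn (fderiv ℝ (fderiv ℝ (fderiv ℝ h))) U :=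
    c1.continuousOn_fderiv_of_isOpen hU le_rfl
  have z3 : ∀ x ∈ U, fderiv ℝ (fderiv ℝ (fderiv ℝ h)) x = 0 := by
    intro x hx
    have := ((c0 x hx).mono hs).mem_closure (hd x hx) (t := {0}) (by
      intro y hy
      obtain ⟨β, l, e, e1⟩ := hq y hy
      exact (e1.fderiv.fderiv.fderiv_eq).trans (quad_QGlue β l e y))
    simpa using this
  have e1 : fderiv ℝ h =ᶠ[𝓝 y₀] fun _ => 0 :=
    e0.fderiv.trans (Eventually.of_forall fun z => fderiv_const_apply _)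
  have e2 : fderiv ℝ (fderiv ℝ h) =ᶠ[𝓝 y₀] fun _ => 0 :=
    e1.fderiv.trans (Eventually.of_forall fun z => fderiv_const_apply _)
  have z2 := zero_QGlue hU hc (c1.differentiableOn (by norm_num)) z3 hy₀ e2.self_of_nhds
  have z1 := zero_QGlue hU hc (c2.differentiableOn (by norm_num)) z2 hy₀ e1.self_of_nhds
  exact zero_QGlue hU hc (c3.differentiableOn (by norm_num)) z1 hy₀ e0.self_of_nhds

theorem qglue_st : QGlueSt H V := by
  intro U N hU hc hN hd B c σ₀ y₀ hy₀ h0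
  have hq : ContDiff ℝ 3 (quartic B c σ₀) := by
    have e : quartic B c σ₀ = fun x : H × V =>
        (‖x.1‖ ^ 2) ^ 2 - 2 * ⟪B x.1, x.1⟫_ℝ + c ^ 2 + 16 * ‖x.2 - σ₀‖ ^ 2 := by
      funext x
      simp only [quartic]
      ring
    rw [e]
    exact ((((contDiff_fst.norm_sq ℝ).pow 2).sub (contDiff_const.mul
      ((B.contDiff.comp contDiff_fst).inner ℝ contDiff_fst))).add contDiff_const).add
      (contDiff_const.mul ((contDiff_snd.sub contDiff_const).norm_sq ℝ))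
  intro x hx
  refine sub_eq_zero.1 (glue_QGlue hU hc (h := fun x => N x - quartic B c σ₀ x)
    (hN.sub hq.contDiffOn) (fun y hy => hy.1) hd ?_ hy₀ (h0.mono fun z hz => sub_eq_zero.2 hz) x hx)
  rintro y ⟨-, B₁, c₁, s₁, hy⟩
  obtain ⟨β, l, e, hβ⟩ := diff_QGlue B₁ B c₁ c s₁ σ₀
  exact ⟨β, l, e, hy.mono fun z hz => by simp only [hz, hβ]⟩

end Pool.Agent.MP_1048c2_an.Cl

end

section
/-!
The description of all solutions for `p = 2`: the local form and the passage to the domain.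
-/

set_option autoImplicit false
set_option linter.unusedSectionVars false

namespace Pool.Agent.MP_1048c2_an.Cl

open Filter Topology Set Module
open scoped InnerProductSpace

variable {m k : ℕ} {H V : Type} [NormedAddCommGroup H] [InnerProductSpace ℝ H]
  [NormedAddCommGroup V] [InnerProductSpace ℝ V] [FiniteDimensional ℝ H] [FiniteDimensional ℝ V]
  (G : HeisenbergType m k H V)

/-- `u` is locally the root of an admissible quartic -/
def Qua (u : H × V → ℝ) (x : H × V) : Prop :=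
  ∃ (B : H →L[ℝ] H) (c : ℝ) (σ₀ : V), Admissible G B c ∧
    ∀ᶠ y in 𝓝 x, u y ^ 2 = quartic B c σ₀ y

theorem adm_zero : Admissible G 0 0 := by
  refine ⟨le_rfl, by simp, fun σ z => ?_, by simp, by simp⟩
  have : G.J σ 0 = 0 := map_zero (JL G σ)
  simp [this]

theorem qua_of_gau {u : H × V → ℝ} {x : H × V} (h : Gau u x) : Qua G u x := by
  obtain ⟨σ₀, h⟩ := h
  exact ⟨0, 0, σ₀, adm_zero G, h.mono fun y hy => by simp [quartic, hy]⟩

theorem quartic_smooth (B : H →L[ℝ] H) (c : ℝ) (σ₀ : V) : ContDiff ℝ 3 (quartic B c σ₀) := by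
  have h : quartic B c σ₀ = fun x : H × V =>
      (‖x.1‖ ^ 2) ^ 2 - 2 * ⟪B x.1, x.1⟫_ℝ + c ^ 2 + 16 * ‖x.2 - σ₀‖ ^ 2 := by
    funext x
    simp only [quartic]
    ring
  rw [h]
  exact ((((contDiff_fst.norm_sq ℝ).pow 2).sub (contDiff_const.mul
    ((B.contDiff.comp contDiff_fst).inner ℝ contDiff_fst))).add contDiff_const).add
      (contDiff_const.mul ((contDiff_snd.sub contDiff_const).norm_sq ℝ))

theorem quartic_glue (hG : QGlueSt H V) {B B' : H →L[ℝ] H} {c c' : ℝ} {σ₀ σ₁ : V} {y : H × V}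
    (h : ∀ᶠ y' in 𝓝 y, quartic B' c' σ₁ y' = quartic B c σ₀ y') (x : H × V) :
    quartic B' c' σ₁ x = quartic B c σ₀ x :=
  hG univ _ isOpen_univ isPreconnected_univ (quartic_smooth B' c' σ₁).contDiffOn
    (fun x _ => subset_closure ⟨mem_univ x, B', c', σ₁, Eventually.of_forall fun _ => rfl⟩)
    B c σ₀ y (mem_univ y) h x (mem_univ x)

theorem locq_dense (hTh : QThirdSt G) (hk : 0 < k) {W : Set (H × V)} {u : H × V → ℝ}
    (hs : Sys G 2 W u) : Ws G u W ⊆ closure {y | Qua G u y} := by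
  have hCh := ch_st G (ch1_st G) ch2_st sep_st
  have hA := p2a_st G hCh cont_st sep_st poly_st
  obtain ⟨n', hn'⟩ := m_even G hk
  have hn : 2 * (n' + k) = m + 2 * k := by omega
  have hs1 := hs.mono hs.op_W1 fun _ hx => hx.1
  have hca := hs.sm_fa.continuousOn
  have hcb := hs.sm_fb.continuousOn
  obtain ⟨O, hO⟩ : ∃ O, O = {y ∈ W1 G u W | fa G u y ≠ 0 ∧ fb G u y ≠ 0} := ⟨_, rfl⟩
  have case1 : O ⊆ {y | Qua G u y} := by
    subst hO
    obtain ⟨hsm, hfl⟩ := ode1_st G 2 W u hs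
    have hop : IsOpen {y ∈ W1 G u W | fa G u y ≠ 0 ∧ fb G u y ≠ 0} :=
      ((hca.prodMk hcb).mono W1_subset).isOpen_inter_preimage hs.op_W1
        (isOpen_ne.prod isOpen_ne)
    refine hTh _ _ (trans_st G (nsys_st G) _ u (hs.mono hop fun _ hy => hy.1.1) fun y hy => ?_)
    have h1 := hA _ u _ _ hs1 hsm hfl hn y hy.1
    exact ⟨hy.1.2.1, hy.2.1, hy.2.2, p2b_st G W u _ hk hs hn y hy.1 hy.2.1 hy.2.2 h1,
      p2c_st G spec_st W u _ hs hn y hy.1 hy.2.1 hy.2.2 (h1 0)⟩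
  have case0 : ∀ x ∈ W, (∀ᶠ y in 𝓝 x, la G u y = 0) → fa G u x = 0 := by
    intro x hx h0
    obtain ⟨W', h1, h2, h3⟩ := mem_nhds_iff.1 (inter_mem h0 (hs.op.mem_nhds hx))
    have hs0 := hs.mono h2 fun _ hy => (h1 hy).2
    obtain ⟨hsm, hfl⟩ := ode0_st G 2 W' u hs0 fun y hy => (h1 hy).1
    exact p2z_st G W' u _ hk hn x h3 (hs.pos x hx) (hA _ u _ _ hs0 hsm hfl hn x h3 0)
  have hop : IsOpen (Ws G u W ∩ (closure O)ᶜ) := hs.op_Ws.inter isClosed_closure.isOpen_compl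
  intro x hx
  by_cases hxO : x ∈ closure O
  · exact closure_mono case1 hxO
  refine subset_closure (qua_of_gau G (rad_st G (nsys_st G) boch_st 2 _ u one_lt_two
    (hs.mono hop fun _ hy => hy.1.1) (fun x hx => ?_) x ⟨hx, hxO⟩))
  have key : fa G u x = 0 ∨ fb G u x = 0 := by
    by_cases h0 : ∀ᶠ y in 𝓝 x, la G u y = 0
    · exact Or.inl (case0 x hx.1.1 h0)
    · by_contra h
      push Not at h
      have hn1 := hs.op_Ws.mem_nhds hx.1
      refine h0 ?_
      filter_upwards [hop.mem_nhds hx, (hca.continuousAt hn1).eventually_ne h.1,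
        (hcb.continuousAt hn1).eventually_ne h.2] with y h1 h2 h3
      by_contra h4
      exact h1.2 (subset_closure (hO ▸ ⟨⟨h1.1.1, h1.1.2, h4⟩, h2, h3⟩))
  rw [← fa_sub_fb hx.1.2, ← fa_add_fb (G := G) u x]
  rcases key with h | h
  · exact ⟨-kap G u x, by rw [h]; module⟩
  · exact ⟨kap G u x, by rw [h]; module⟩

theorem locq (hTh : QThirdSt G) (hG : QGlueSt H V) (hk : 0 < k) {W : Set (H × V)}
    {u : H × V → ℝ} (hs : Sys G 2 W u) : ∀ x ∈ Ws G u W, Qua G u x := by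
  intro x hx
  obtain ⟨r, hr, hb⟩ := Metric.isOpen_iff.1 hs.op_Ws x hx
  have h1 : Metric.ball x r ⊆ closure (Metric.ball x r ∩ {y | Qua G u y}) := fun y hy =>
    Metric.isOpen_ball.inter_closure ⟨hy, locq_dense G hTh hk hs (hb hy)⟩
  obtain ⟨y₀, hy₀, B, c, σ₀, hB, h2⟩ := closure_nonempty_iff.1 ⟨x, h1 (Metric.mem_ball_self hr)⟩
  refine ⟨B, c, σ₀, hB, mem_of_superset (Metric.ball_mem_nhds x hr) ?_⟩
  exact hG _ (fun y => u y ^ 2) Metric.isOpen_ball (convex_ball x r).isPreconnected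
    ((hs.sm.mono fun y hy => (hb hy).1).pow 2)
    (fun y hy => closure_mono (by
      rintro _ ⟨h3, B', c', σ₁, _, h4⟩
      exact ⟨h3, B', c', σ₁, h4⟩) (h1 hy))
    B c σ₀ y₀ hy₀ h2

theorem la_quartic {u : H × V → ℝ} {y : H × V} {B : H →L[ℝ] H} {c : ℝ} {σ₀ : V}
    (hu : DifferentiableAt ℝ u y) (h : ∀ᶠ y' in 𝓝 y, u y' ^ 2 = quartic B c σ₀ y') :
    u y • la G u y = (16 : ℝ) • (y.2 - σ₀) := by
  have d1 := (hu.hasFDerivAt.comp y.2 (hasFDerivAt_prodMk_right (𝕜 := ℝ) y.1 y.2)).pow 2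
  have d2 := (((((hasFDerivAt_id (𝕜 := ℝ) y.2).sub_const σ₀).norm_sq).const_mul 16).const_add
    (n0 B c y.1)).congr_of_eventuallyEq (f₁ := fun τ => u (y.1, τ) ^ 2)
      ((Continuous.prodMk_right y.1).continuousAt.eventually h)
  refine ext_inner_right ℝ fun v => ?_
  have h3 := congrArg (fun L : V →L[ℝ] ℝ => L v) (d1.unique d2)
  simp [fderiv_eq G] at h3
  simp only [real_inner_smul_left, inner_sub_left]
  linarith

variable [MeasurableSpace H] [BorelSpace H] [MeasurableSpace V] [BorelSpace V]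

/-- the properties of the power of the potential -/
structure Hy3 (R : ℝ) (Ω : Set (H × V)) (u : H × V → ℝ) : Prop where
  k0 : 0 < k
  R0 : 0 < R
  op : IsOpen Ω
  bd : Bornology.IsBounded Ω
  c1 : ContDiffOn ℝ 1 u (U0 Ω)
  c0 : ContinuousOn u Ωᶜ
  pos : ∀ x ∉ Ω, 0 < u x
  fr : ∀ x ∈ frontier Ω, u x = R ^ 2
  inf : Tendsto u (cocompact (H × V)) atTop
  ne : ∀ x ∈ U0 Ω, fderiv ℝ u x ≠ 0
  qua : ∀ x ∈ Ws G u (U0 Ω), Qua G u x
  glue : QGlueSt H V
  top : QTopSt G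

variable {G} {R : ℝ} {Ω : Set (H × V)} {u : H × V → ℝ}

theorem Hy3.nt (h : Hy3 G R Ω u) : Nontrivial H :=
  finrank_pos_iff.1 ((finrank_H G).symm ▸ m_pos G h.k0)

theorem Hy3.dif (h : Hy3 G R Ω u) {x : H × V} (hx : x ∈ U0 Ω) : DifferentiableAt ℝ u x :=
  (h.c1.contDiffAt ((U0_open Ω).mem_nhds hx)).differentiableAt one_ne_zero

theorem Hy3.cla (h : Hy3 G R Ω u) {x : H × V} (hx : x ∈ U0 Ω) : ContinuousAt (la G u) x :=
  (contDiffOn_la G (n := 0) (U0_open Ω) h.c1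
    (by simp)).continuousOn.continuousAt ((U0_open Ω).mem_nhds hx)

theorem Hy3.slice (h : Hy3 G R Ω u) {z : H} {σ : V} (hx : (z, σ) ∈ U0 Ω)
    (he : IsLocalExtr (fun σ : V => u (z, σ)) σ) :
    ∃ (B : H →L[ℝ] H) (c : ℝ), Admissible G B c ∧ u (z, σ) ^ 2 = n0 B c z ∧
      ∀ᶠ y in 𝓝 (z, σ), u y ^ 2 = quartic B c σ y := by
  have h1 : la G u (z, σ) = 0 := by
    have h5 := he.hasFDerivAt_eq_zero
      ((h.dif hx).hasFDerivAt.comp σ (hasFDerivAt_prodMk_right z σ))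
    refine ext_inner_right ℝ fun v => ?_
    simpa [fderiv_eq G] using congrArg (fun L : V →L[ℝ] ℝ => L v) h5
  obtain ⟨B, c, σ₀, hB, h2⟩ := h.qua _ ⟨hx, by rw [h1]; norm_num⟩
  have h3 := la_quartic G (h.dif hx) h2
  rw [h1, smul_zero, eq_comm, smul_eq_zero, sub_eq_zero] at h3
  obtain rfl : σ = σ₀ := h3.resolve_left (by norm_num)
  exact ⟨B, c, hB, by simpa [quartic_eq] using h2.self_of_nhds, h2⟩

theorem Hy3.start (h : Hy3 G R Ω u) : ∃ z σ, (z, σ) ∈ U0 Ω ∧ R ^ 2 < u (z, σ) ∧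
    IsLocalExtr (fun σ : V => u (z, σ)) σ := by
  have := h.nt
  have h1 : ∀ᶠ x in cocompact (H × V), x ∈ (closure Ω)ᶜ ∧ R ^ 2 < u x :=
    Eventually.and h.bd.isCompact_closure.compl_mem_cocompact (h.inf.eventually_gt_atTop _)
  rw [← Metric.cobounded_eq_cocompact,
    (Metric.hasBasis_cobounded_compl_closedBall (0 : H × V)).eventually_iff] at h1
  obtain ⟨r, -, hr⟩ := h1
  obtain ⟨z, hz⟩ := NormedSpace.exists_lt_norm ℝ H (max r 0)
  have h2 : ∀ σ : V, (z, σ) ∈ (closure Ω)ᶜ ∧ R ^ 2 < u (z, σ) := fun σ => hr (by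
    rw [mem_compl_iff, mem_closedBall_zero_iff, not_le]
    exact ((le_max_left _ _).trans_lt hz).trans_le (norm_fst_le (z, σ)))
  have hz' : z ≠ 0 := norm_pos_iff.1 ((le_max_right _ _).trans_lt hz)
  have h3 : ∀ σ : V, ContinuousAt (fun σ : V => u (z, σ)) σ := fun σ =>
    (h.dif ⟨(h2 σ).1, hz'⟩).continuousAt.comp (Continuous.prodMk_right z).continuousAt
  have h4 : Tendsto (fun σ : V => ((z, σ) : H × V)) (cocompact V) (cocompact (H × V)) :=
    (Isometry.of_dist_eq fun a b => by simp [Prod.dist_eq]).isClosedEmbedding.tendsto_cocompact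
  obtain ⟨σ, hσ⟩ := (continuous_iff_continuousAt.2 h3).exists_forall_le
    (h.inf.comp h4)
  exact ⟨z, σ, ⟨(h2 σ).1, hz'⟩, (h2 σ).2, Or.inl (Eventually.of_forall hσ)⟩

theorem Hy3.cont (h : Hy3 G R Ω u) {B : H →L[ℝ] H} {c : ℝ} {σ₀ : V} {T : Set (H × V)}
    (hT : IsPreconnected T)
    (hT' : ∀ x ∈ T, (x.1 ≠ 0 ∧ 0 < n0 B c x.1) ∧ quartic B c σ₀ x ≠ R ^ 4) {x₀ : H × V}
    (h0 : x₀ ∈ T) (hx₀ : x₀ ∈ U0 Ω) (hσ₀ : ∀ᶠ y in 𝓝 x₀, u y ^ 2 = quartic B c σ₀ y) :
    ∀ x ∈ closure T, x ∈ closure (closure Ω)ᶜ ∧ x ∉ Ω ∧ u x ^ 2 = quartic B c σ₀ x := by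
  obtain ⟨O, hO⟩ : ∃ O, O = U0 Ω ∩ {x | ∀ᶠ y in 𝓝 x, u y ^ 2 = quartic B c σ₀ y} := ⟨_, rfl⟩
  have hO' : ∀ x, x ∈ O ↔ x ∈ U0 Ω ∧ ∀ᶠ y in 𝓝 x, u y ^ 2 = quartic B c σ₀ y := fun x => by
    rw [hO]; rfl
  have op : IsOpen O := hO ▸ (U0_open Ω).inter isOpen_setOfPred_eventually_nhds
  have sub : O ⊆ Ωᶜ := fun x hx hh => ((hO' x).1 hx).1.1 (subset_closure hh)
  have cl : ∀ x ∈ closure O, x ∉ Ω ∧ u x ^ 2 = quartic B c σ₀ x := fun x hx => by
    have h1 : x ∈ Ωᶜ := closure_minimal sub h.op.isClosed_compl hx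
    exact ⟨h1, sub_eq_zero.1 (lim_Glob (F := fun x => u x ^ 2 - quartic B c σ₀ x)
      ((((h.c0 x h1).mono sub).pow 2).sub (quartic_cont B c σ₀).continuousWithinAt) hx
        fun y hy => sub_eq_zero.2 ((hO' y).1 hy).2.self_of_nhds)⟩
  have key := hT.subset_of_closure_inter_subset op ⟨x₀, h0, (hO' x₀).2 ⟨hx₀, hσ₀⟩⟩
    fun x ⟨hx, hxT⟩ => by
      obtain ⟨⟨hz, hn⟩, hN⟩ := hT' x hxT
      obtain ⟨h1, h2⟩ := cl x hx
      have h3 : x ∈ (closure Ω)ᶜ := fun hh => by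
        have := h.fr x (h.op.frontier_eq ▸ ⟨hh, h1⟩)
        rw [← h2, this] at hN
        exact hN (by ring)
      have c1 := h.cla ⟨h3, hz⟩
      have c2 := (h.dif ⟨h3, hz⟩).continuousAt
      have h4 := lim_Glob (F := fun x => ‖la G u x‖ ^ 2 * u x ^ 2 - 256 * ‖x.2 - σ₀‖ ^ 2)
        (ContinuousAt.continuousWithinAt (by fun_prop)) hx fun y hy => by
          have h1 := congrArg (fun v : V => ‖v‖ ^ 2)
            (la_quartic G (h.dif ((hO' y).1 hy).1) ((hO' y).1 hy).2)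
          simp only [norm_smul, mul_pow, Real.norm_eq_abs, sq_abs] at h1
          linarith
      have h5 := h.pos x h1
      have h7 : ‖la G u x‖ < 4 := by
        refine lt_of_pow_lt_pow_left₀ 2 (by norm_num) (lt_of_mul_lt_mul_right ?_ (sq_nonneg (u x)))
        rw [quartic_eq] at h2
        linarith
      obtain ⟨B', c', σ₁, -, hσ₁⟩ := h.qua x ⟨⟨h3, hz⟩, h7⟩
      obtain ⟨y, hy, hy'⟩ :=
        ((mem_closure_iff_frequently.1 hx).and_eventually hσ₁.eventually_nhds).exists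
      have h9 := quartic_glue h.glue ((hy'.and ((hO' y).1 hy).2).mono fun _ h => h.1.symm.trans h.2)
      exact (hO' x).2 ⟨⟨h3, hz⟩, hσ₁.mono fun y hy => hy.trans (h9 y)⟩
  intro x hx
  have h1 := closure_mono key hx
  exact ⟨closure_mono (fun y hy => ((hO' y).1 hy).1.1) h1, cl x h1⟩

theorem Hy3.outer (h : Hy3 G R Ω u) : ∃ (B : H →L[ℝ] H) (c : ℝ) (σ₀ : V), Admissible G B c ∧
    ∀ x, R ^ 4 ≤ quartic B c σ₀ x → x ∈ closure (closure Ω)ᶜ ∧ u x ^ 2 = quartic B c σ₀ x := by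
  have R0 := h.R0
  obtain ⟨z, σ₀, hx₀, hu₀, he⟩ := h.start
  obtain ⟨B, c, hB, h1, h2⟩ := h.slice hx₀ he
  obtain ⟨t1, -, t3, -, t5, -⟩ := h.top B c σ₀ (R ^ 4) h.k0 hB
  have h3 : R ^ 4 < u (z, σ₀) ^ 2 := by nlinarith [sq_nonneg R]
  have h4 := h.cont t1 (fun x hx => ⟨hx.1, hx.2.ne'⟩) (x₀ := (z, σ₀))
    ⟨⟨hx₀.2, h1 ▸ lt_trans (by positivity) h3⟩, h3.trans_eq h2.self_of_nhds⟩ hx₀ h2
  refine ⟨B, c, σ₀, hB, fun x hx => ?_⟩
  have h5 := h4 x (closure_minimal ((t3.open_subset_closure_inter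
    (isOpen_lt continuous_const (quartic_cont B c σ₀))).trans
      (closure_mono fun y hy => And.intro hy.2 hy.1)) isClosed_closure (t5 hx))
  exact ⟨h5.1, h5.2.2⟩

theorem Hy3.nomin (h : Hy3 G R Ω u) {z : H} {σ : V} (hx : (z, σ) ∈ U0 Ω)
    (he : IsLocalExtr (fun σ : V => u (z, σ)) σ) : R ^ 2 ≤ u (z, σ) := by
  have R0 := h.R0
  by_contra h0
  rw [not_le] at h0
  obtain ⟨B, c, hB, h1, h2⟩ := h.slice hx he
  obtain ⟨-, t2, t3, ⟨y, t4⟩, -⟩ := h.top B c σ (R ^ 4) h.k0 hB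
  have hp := h.pos _ fun hh => hx.1 (subset_closure hh)
  have h3 : u (z, σ) ^ 2 < R ^ 4 := by nlinarith
  have h4 := h.cont t2 (fun x hx => ⟨hx.1, hx.2.ne⟩) (x₀ := (z, σ))
    ⟨⟨hx.2, h1 ▸ pow_pos hp 2⟩, h2.self_of_nhds.symm.trans_lt h3⟩ hx h2
  have h5 := h4 y (((t3.open_subset_closure_inter
    (isOpen_lt (quartic_cont B c σ) continuous_const)).trans
      (closure_mono fun y hy => And.intro hy.2 hy.1)) (show quartic B c σ y < R ^ 4 by
        rw [t4]; positivity))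
  have h6 := pow_pos (h.pos y h5.2.1) 2
  rw [h5.2.2, t4] at h6
  exact lt_irrefl _ h6

theorem Hy3.all (h : Hy3 G R Ω u) : ∃ (B : H →L[ℝ] H) (c : ℝ) (σ₀ : V), Admissible G B c ∧
    interior (closure Ω) = {x | quartic B c σ₀ x < R ^ 4} ∧
    ∀ x ∉ closure Ω, u x ^ 2 = quartic B c σ₀ x := by
  have R0 := h.R0
  obtain ⟨B, c, σ₀, hB, hσ₀⟩ := h.outer
  have ob : IsOpen {x : H × V | quartic B c σ₀ x < R ^ 4} :=
    isOpen_lt (quartic_cont B c σ₀) continuous_const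
  suffices key : {x : H × V | quartic B c σ₀ x < R ^ 4} ⊆ closure Ω by
    refine ⟨B, c, σ₀, hB, Subset.antisymm (fun x hx => ?_) (interior_maximal key ob),
      fun x hx => (hσ₀ x (not_lt.1 fun hh => hx (key hh))).2⟩
    by_contra hh
    have := (hσ₀ x (not_lt.1 hh)).1
    rw [closure_compl] at this
    exact this hx
  intro x hx
  by_contra hh
  obtain ⟨D, hD⟩ : ∃ D, D = {x : H × V | quartic B c σ₀ x < R ^ 4} ∩ (closure Ω)ᶜ := ⟨_, rfl⟩
  have xD : x ∈ D := hD ▸ ⟨hx, hh⟩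
  have oD : IsOpen D := hD ▸ ob.inter isClosed_closure.isOpen_compl
  have bD : Bornology.IsBounded D :=
    (h.top B c σ₀ (R ^ 4) h.k0 hB).2.2.2.2.2.subset (hD ▸ inter_subset_left)
  have kD := bD.isCompact_closure
  have sD : closure D ⊆ Ωᶜ :=
    closure_minimal (fun y hy hh => (hD ▸ hy).2 (subset_closure hh)) h.op.isClosed_compl
  have fD : ∀ y ∈ closure D, y ∉ D → u y = R ^ 2 := fun y hy hy' => by
    by_cases h1 : y ∈ closure Ω
    · exact h.fr y (h.op.frontier_eq ▸ ⟨h1, sD hy⟩)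
    · have h2 : R ^ 4 ≤ quartic B c σ₀ y := not_lt.1 fun hh => hy' (hD ▸ ⟨hh, h1⟩)
      have h3 : quartic B c σ₀ y ≤ R ^ 4 :=
        closure_minimal (s := D) (t := {y | quartic B c σ₀ y ≤ R ^ 4})
          (fun y hy => le_of_lt (show quartic B c σ₀ y < R ^ 4 from (hD ▸ hy).1))
          (isClosed_le (quartic_cont B c σ₀) continuous_const) hy
      refine (pow_left_inj₀ (h.pos y (sD hy)).le (by positivity) two_ne_zero).1 ?_
      rw [(hσ₀ y h2).2, le_antisymm h3 h2]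
      ring
  have nD : ∀ y ∈ D, closure D ∈ 𝓝 y := fun y hy =>
    mem_of_superset (oD.mem_nhds hy) subset_closure
  have dD : ∀ y ∈ D, y ∈ (closure Ω)ᶜ := fun y hy => (hD ▸ hy).2
  have iD : ∀ y ∈ closure D, u y ≠ R ^ 2 → y ∈ D := fun y hy h1 =>
    by_contra fun h2 => h1 (fD y hy h2)
  have kT : ∀ z : H, IsCompact {τ : V | (z, τ) ∈ closure D} := fun z =>
    (Isometry.of_dist_eq (f := fun τ : V => ((z, τ) : H × V)) fun a b => by
      simp [Prod.dist_eq]).isClosedEmbedding.isCompact_preimage kD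
  have cT : ∀ z : H, ContinuousOn (fun τ : V => u (z, τ)) {τ : V | (z, τ) ∈ closure D} :=
    fun z => (h.c0.mono sD).comp (Continuous.prodMk_right z).continuousOn fun _ hτ => hτ
  have nT : ∀ z τ, (z, τ) ∈ D → {τ : V | (z, τ) ∈ closure D} ∈ 𝓝 τ := fun z τ hτ =>
    (Continuous.prodMk_right z).continuousAt.preimage_mem_nhds (nD _ hτ)
  have up : ∀ y ∈ D, y.1 ≠ 0 → u y ≤ R ^ 2 := fun y hy hz => by
    by_contra h1
    obtain ⟨τ, h2, h3⟩ := (kT y.1).exists_isMaxOn ⟨y.2, subset_closure hy⟩ (cT y.1)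
    have h4 : u y ≤ u (y.1, τ) := h3 (subset_closure hy)
    have h5 := iD _ h2 (by linarith)
    have h6 := h3.isLocalMax (nT _ _ h5)
    obtain ⟨B', c', -, h8, h7'⟩ := h.slice ⟨dD _ h5, hz⟩ h6.isExtr
    have h7 := (Continuous.prodMk_right y.1).continuousAt.eventually h7'
    have : Nontrivial V := finrank_pos_iff.1 ((finrank_V G).symm ▸ h.k0)
    obtain ⟨τ', ⟨h9, h10, h11⟩, h12⟩ := (((h7.and (h6.and (nT _ _ h5))).filter_mono
      (nhdsWithin_le_nhds (s := {τ}ᶜ))).and self_mem_nhdsWithin).exists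
    have h13 := pow_le_pow_left₀ (h.pos _ (sD h11)).le h10 2
    have h14 := pow_pos (norm_pos_iff.2 (sub_ne_zero.2 h12)) 2
    rw [quartic_eq] at h9
    linarith
  have lo : ∀ y ∈ D, y.1 ≠ 0 → R ^ 2 ≤ u y := fun y hy hz => by
    by_contra h1
    obtain ⟨τ, h2, h3⟩ := (kT y.1).exists_isMinOn ⟨y.2, subset_closure hy⟩ (cT y.1)
    have h4 : u (y.1, τ) ≤ u y := h3 (subset_closure hy)
    have h5 := iD _ h2 (by linarith)
    have h6 := h.nomin ⟨dD _ h5, hz⟩ (h3.isLocalMin (nT _ _ h5)).isExtr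
    linarith
  have := h.nt
  obtain ⟨y, hy, hz⟩ := ((dense_compl_singleton (0 : H)).preimage
    (isOpenMap_fst (Y := V))).inter_open_nonempty D oD ⟨x, xD⟩
  refine h.ne y ⟨dD y hy, hz⟩ (IsLocalMin.fderiv_eq_zero ?_)
  filter_upwards [oD.mem_nhds hy, (isOpen_ne.preimage continuous_fst).mem_nhds hz] with w h1 h2
  exact (up y hy hz).trans (lo w h1 h2)

variable (G)

include G in
theorem two_lt_Q (hk : 0 < k) : 2 < homDim m k := by
  have h1 := m_pos G hk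
  rw [homDim]
  exact_mod_cast (by omega : 2 < m + 2 * k)

theorem all_of (hTh : QThirdSt G) (hG : QGlueSt H V) (hT : QTopSt G) (hk : 0 < k) (hR : 0 < R)
    {f : H × V → ℝ} {g : Fin m → H × V → ℝ} (op : IsOpen Ω) (bd : Bornology.IsBounded Ω)
    (hf : IsSobolevPotential G 2 Ω f g)
    (hP : ∀ᵐ x, x ∉ closure Ω → weakP k 2 f g x = cConst m k 2 R ^ (2 : ℝ) * ‖x.1‖ ^ (2 : ℝ)) :
    ∃ (B : H →L[ℝ] H) (c : ℝ) (σ₀ : V), Admissible G B c ∧
      interior (closure Ω) = {x | quartic B c σ₀ x < R ^ 4} ∧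
      ∀ x ∉ closure Ω, f x = (quartic B c σ₀ x / R ^ 4) ^ (-(homDim m k - 2) / 4) := by
  have hQ := two_lt_Q G hk
  have h1 := reg_all G 2 R Ω f g hk one_lt_two hQ hR hf hP
  obtain ⟨h2, h3⟩ := reg2_st G (uniq_st G (ibp_st G)) 2 R Ω f g one_lt_two hf hP h1
  obtain ⟨-, -, c0, pos, fr, inf⟩ := hf
  have h4 := weak2_st G 2 R Ω f one_lt_two hQ hR pos h1 h2 h3
  have ha : -(2 * (2 - 1) / (homDim m k - 2)) < 0 :=
    neg_neg_of_pos (div_pos (by linarith) (by linarith))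
  obtain ⟨B, c, σ₀, hB, h5, h6⟩ := Hy3.all (G := G) (u := uf m k 2 R f) ⟨hk, hR, op, bd,
    h4.sm.of_le (by norm_num),
    continuousOn_const.mul (c0.rpow_const fun x hx => Or.inl (pos x hx).ne'),
    fun x hx => mul_pos (by positivity) (Real.rpow_pos_of_pos (pos x hx) _),
    fun x hx => by rw [uf, fr x hx, Real.one_rpow, mul_one],
    Tendsto.const_mul_atTop (by positivity) ((tendsto_rpow_neg_nhdsGT_zero ha).comp
      (tendsto_nhdsWithin_iff.2 ⟨inf, mem_of_superset bd.isCompact_closure.compl_mem_cocompact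
        fun x hx => pos x fun hh => hx (subset_closure hh)⟩)),
    fun x hx h0 => by
      have h5 := h4.du_vf hx
      have h6 := pow_pos (norm_pos_iff.2 (h4.nz x hx)) 2
      rw [h0, _root_.zero_apply] at h5
      linarith, locq G hTh hG hk h4, hG, hT⟩
  refine ⟨B, c, σ₀, hB, h5, fun x hx => ?_⟩
  have h7 := pos x fun hh => hx (subset_closure hh)
  have h8 : homDim m k - 2 ≠ 0 := by linarith
  rw [← h6 x hx, uf, mul_pow, ← pow_mul, mul_div_cancel_left₀ _ (by positivity),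
    ← Real.rpow_natCast, ← Real.rpow_mul h7.le, ← Real.rpow_mul h7.le]
  convert (Real.rpow_one (f x)).symm using 2
  push_cast
  field_simp
  ring

theorem all_to (hT : QTopSt G) (hP : QPotSt G) (hk : 0 < k) (hR : 0 < R) {B : H →L[ℝ] H} {c : ℝ}
    (σ₀ : V) (hB : Admissible G B c) (hΩ : Ω = {x | quartic B c σ₀ x < R ^ 4}) {f : H × V → ℝ}
    (hf : f = fun x => (quartic B c σ₀ x / R ^ 4) ^ (-(homDim m k - 2) / 4)) :
    IsOpen Ω ∧ IsConnected Ω ∧ Bornology.IsBounded Ω ∧ interior (closure Ω) = Ω ∧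
      IsSobolevPotential G 2 Ω f (fun i => X G i f) ∧ ∀ x ∉ closure Ω,
        weakP k 2 f (fun i => X G i f) x = cConst m k 2 R ^ (2 : ℝ) * ‖x.1‖ ^ (2 : ℝ) := by
  subst hΩ hf
  obtain ⟨-, t2, t3, ⟨y, t4⟩, t5, t6⟩ := hT B c σ₀ (R ^ 4) hk hB
  obtain ⟨h1, h2⟩ := hP B c σ₀ R hk hB hR
  have ob : IsOpen {x : H × V | quartic B c σ₀ x < R ^ 4} :=
    isOpen_lt (quartic_cont B c σ₀) continuous_const
  refine ⟨ob, ⟨⟨y, show quartic B c σ₀ y < R ^ 4 by rw [t4]; positivity⟩,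
    t2.subset_closure (fun x hx => hx.2) ((t3.open_subset_closure_inter ob).trans
      (closure_mono fun y hy => ⟨hy.2, hy.1⟩))⟩, t6,
    Subset.antisymm (fun x hx => ?_) (interior_maximal subset_closure ob),
    bridge_st G (ibp_st G) 2 _ _ (by norm_num) h1, h2⟩
  by_contra hh
  have h4 : closure {x : H × V | quartic B c σ₀ x < R ^ 4} ⊆ {y | quartic B c σ₀ y ≤ R ^ 4} :=
    closure_lt_subset_le (quartic_cont B c σ₀) continuous_const
  have h5 : {x : H × V | R ^ 4 < quartic B c σ₀ x} ⊆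
      (closure {x : H × V | quartic B c σ₀ x < R ^ 4})ᶜ := fun y hy h6 =>
    absurd (show quartic B c σ₀ y ≤ R ^ 4 from h4 h6) (not_le.2 hy)
  have h3 := closure_mono h5 (t5 (show R ^ 4 ≤ quartic B c σ₀ x from not_lt.1 hh))
  rw [closure_compl] at h3
  exact h3 hx

omit [FiniteDimensional ℝ V] [MeasurableSpace V] [BorelSpace V] in
theorem ball_le [Nontrivial V] {a a' : ℝ} {σ₀ σ₁ : V} (ha : 0 < a')
    (h : ∀ σ, 16 * ‖σ - σ₁‖ ^ 2 < a' → 16 * ‖σ - σ₀‖ ^ 2 < a) : a' + 16 * ‖σ₁ - σ₀‖ ^ 2 ≤ a := by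
  have h1 := h σ₁ (by simpa using ha)
  have h0 : 0 ≤ a := le_trans (by positivity) h1.le
  obtain ⟨w, h2, h3⟩ : ∃ w : V, ‖w‖ = √a / 4 ∧ ⟪w, σ₁ - σ₀⟫_ℝ = ‖w‖ * ‖σ₁ - σ₀‖ := by
    by_cases hv : σ₁ - σ₀ = 0
    · obtain ⟨w, hw⟩ := exists_norm_eq V (c := √a / 4) (by positivity)
      exact ⟨w, hw, by simp [hv]⟩
    · have h4 := norm_pos_iff.2 hv
      have h5 : ‖(√a / 4 / ‖σ₁ - σ₀‖) • (σ₁ - σ₀)‖ = √a / 4 := by
        rw [norm_smul, Real.norm_of_nonneg (by positivity), div_mul_cancel₀ _ h4.ne']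
      refine ⟨_, h5, ?_⟩
      rw [h5, real_inner_smul_left, real_inner_self_eq_norm_sq]
      field_simp
  have h4 : 16 * ‖w‖ ^ 2 = a := by
    rw [h2, div_pow, Real.sq_sqrt h0]
    ring
  have h5 := mt (h (σ₀ + w)) (by simp [h4])
  rw [show σ₀ + w - σ₁ = w - (σ₁ - σ₀) by abel, norm_sub_sq_real, h3, not_lt] at h5
  have h6 : ‖σ₁ - σ₀‖ ≤ ‖w‖ :=
    le_of_pow_le_pow_left₀ two_ne_zero (norm_nonneg _) (by linarith)
  nlinarith [mul_le_mul_of_nonneg_right h6 (norm_nonneg (σ₁ - σ₀))]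

omit [MeasurableSpace H] [BorelSpace H] in
theorem n0_analytic (B : H →L[ℝ] H) (c L : ℝ) :
    AnalyticOnNhd ℝ (fun z => L - n0 B c z) univ := by
  have h : (fun z => L - n0 B c z) = fun z : H =>
      L - ((‖z‖ ^ 2) ^ 2 - 2 * ⟪B z, z⟫_ℝ + c ^ 2) := by
    funext x
    simp only [n0]
    ring
  rw [h, ← contDiff_omega_iff_analyticOnNhd]
  exact contDiff_const.sub ((((contDiff_id.norm_sq ℝ).pow 2).sub (contDiff_const.mul
    (B.contDiff.inner ℝ contDiff_id))).add contDiff_const)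

theorem all_inj (hT : QTopSt G) (hk : 0 < k) {R' : ℝ} (hR : 0 < R) (hR' : 0 < R')
    {B B' : H →L[ℝ] H} {c c' : ℝ} {σ₀ σ₁ : V} (hB : Admissible G B c) (hB' : Admissible G B' c')
    (h : {x | quartic B c σ₀ x < R ^ 4} = {x | quartic B' c' σ₁ x < R' ^ 4}) :
    B' = B ∧ c' = c ∧ σ₁ = σ₀ ∧ R' = R := by
  have : Nontrivial V := finrank_pos_iff.1 ((finrank_V G).symm ▸ hk)
  have : Nontrivial H := finrank_pos_iff.1 ((finrank_H G).symm ▸ m_pos G hk)
  obtain ⟨-, -, -, ⟨y, t4⟩, -⟩ := hT B c σ₀ (R ^ 4) hk hB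
  have h1 : ∀ z, n0 B c z < R ^ 4 → σ₁ = σ₀ ∧ R ^ 4 - n0 B c z = R' ^ 4 - n0 B' c' z := by
    intro z hz
    have h2 : ∀ σ, 16 * ‖σ - σ₀‖ ^ 2 < R ^ 4 - n0 B c z ↔
        16 * ‖σ - σ₁‖ ^ 2 < R' ^ 4 - n0 B' c' z := fun σ => by
      have h3 : quartic B c σ₀ (z, σ) < R ^ 4 ↔ quartic B' c' σ₁ (z, σ) < R' ^ 4 :=
        Set.ext_iff.1 h (z, σ)
      rwa [quartic_eq, quartic_eq, ← lt_sub_iff_add_lt', ← lt_sub_iff_add_lt'] at h3
    have h3 := ball_le (sub_pos.2 hz) fun σ => (h2 σ).1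
    have h4 := ball_le (lt_of_lt_of_le (add_pos_of_pos_of_nonneg (sub_pos.2 hz) (by positivity))
      h3) fun σ => (h2 σ).2
    have h5 := sq_nonneg ‖σ₀ - σ₁‖
    have h6 := sq_nonneg ‖σ₁ - σ₀‖
    exact ⟨sub_eq_zero.1 (norm_eq_zero.1 (pow_eq_zero_iff two_ne_zero |>.1 (by linarith))),
      by linarith⟩
  have h2 : n0 B c y.1 < R ^ 4 := by
    rw [quartic_eq] at t4
    nlinarith [pow_pos hR 4, sq_nonneg ‖y.2 - σ₀‖]
  have h3 := congrFun ((n0_analytic B c (R ^ 4)).eq_of_eventuallyEq (n0_analytic B' c' (R' ^ 4))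
    (((n0_cont B c).continuousAt.eventually_lt_const h2).mono fun z hz => (h1 z hz).2))
  have h4 := h3 0
  simp only [n0, norm_zero, inner_zero_right] at h3 h4
  have h5 : B' = B := by
    refine ContinuousLinearMap.ext fun z => ext_inner_right ℝ fun w => ?_
    have h6 := h3 (z + w)
    have h7 := h3 z
    have h8 := h3 w
    simp only [map_add, inner_add_left, inner_add_right] at h6
    rw [hB.2.1 w z, hB'.2.1 w z, real_inner_comm (B z), real_inner_comm (B' z)] at h6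
    linarith
  obtain ⟨z, hz⟩ := exists_ne (0 : H)
  have h6 : c' ^ 2 = c ^ 2 := smul_left_injective ℝ hz (by
    simpa only [h5] using (hB'.2.2.2.2 z).symm.trans (h5 ▸ hB.2.2.2.2 z))
  exact ⟨h5, (pow_left_inj₀ hB'.1 hB.1 two_ne_zero).1 h6, (h1 _ h2).1,
    (pow_left_inj₀ hR'.le hR.le four_ne_zero).1 (by linarith)⟩

theorem all_ball (hT : QTopSt G) (hk : 0 < k) (hR : 0 < R) {B : H →L[ℝ] H} {c : ℝ} {σ₀ : V}
    (hB : Admissible G B c) :
    (∃ (R' : ℝ) (σ₁ : V), {x | quartic B c σ₀ x < R ^ 4} = gaugeBall R' σ₁) ↔ B = 0 := by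
  constructor
  · rintro ⟨R', σ₁, h⟩
    obtain ⟨-, -, -, ⟨y, t4⟩, -⟩ := hT B c σ₀ (R ^ 4) hk hB
    have h1 : y ∈ gaugeBall R' σ₁ := h ▸ show quartic B c σ₀ y < R ^ 4 by rw [t4]; positivity
    have h2 : R' ≠ 0 := by
      rintro rfl
      exact absurd (show ‖y.1‖ ^ 4 + 16 * ‖y.2 - σ₁‖ ^ 2 < 0 ^ 4 from h1)
        (not_lt.2 (by rw [zero_pow four_ne_zero]; positivity))
    refine (all_inj G hT hk (σ₁ := σ₁) hR (abs_pos.2 h2) hB (adm_zero G) (h.trans ?_)).1.symm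
    simp [gaugeBall, quartic, (by decide : Even 4).pow_abs]
  · rintro rfl
    have : Nontrivial H := finrank_pos_iff.1 ((finrank_H G).symm ▸ m_pos G hk)
    obtain ⟨z, hz⟩ := exists_ne (0 : H)
    have h1 : c ^ 2 = 0 := (smul_eq_zero.1 (hB.2.2.2.2 z).symm).resolve_right hz
    exact ⟨R, σ₀, by simp [gaugeBall, quartic, h1]⟩

theorem all_split (hk : 0 < k) : (∃ (B : H →L[ℝ] H) (c : ℝ), Admissible G B c ∧ B ≠ 0) ↔
    ∃ K : Submodule ℝ H, (∀ σ, ∀ z ∈ K, G.J σ z ∈ K) ∧ 2 * finrank ℝ K = m := by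
  refine Iff.trans ⟨?_, ?_⟩ (split_st G).symm
  · rintro ⟨B, c, ⟨h1, h2, h3, h4, h5⟩, h6⟩
    have hc : c ≠ 0 := by
      rintro rfl
      refine h6 (ContinuousLinearMap.ext fun z => ?_)
      have h7 := h2 z (B z)
      rw [h5] at h7
      simpa using h7
    refine ⟨c⁻¹ • B, fun z z' => by simp [real_inner_smul_left, real_inner_smul_right, h2],
      fun z => ?_, by simp [real_inner_smul_right, ← Finset.mul_sum, h4],
      fun μ z => (congrArg (c⁻¹ • ·) (h3 μ z)).trans (map_smul (JL G μ) _ _).symm⟩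
    simp only [_root_.smul_apply, map_smul, h5, smul_smul]
    rw [show c⁻¹ * (c⁻¹ * c ^ 2) = 1 by field_simp, one_smul]
  · rintro ⟨A, h1, h2, h3, h4⟩
    have : Nontrivial H := finrank_pos_iff.1 ((finrank_H G).symm ▸ m_pos G hk)
    obtain ⟨z, hz⟩ := exists_ne (0 : H)
    exact ⟨A, 1, ⟨zero_le_one, h1, h4, h3, fun z => by simp [h2]⟩,
      fun h => hz (by simpa [h] using (h2 z).symm)⟩

end Pool.Agent.MP_1048c2_an.Cl

end

section
namespace Pool.Agent.MP_1048c2_an.Cl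

open MeasureTheory

theorem all_two {m k : ℕ} {H V : Type} [NormedAddCommGroup H] [InnerProductSpace ℝ H]
    [FiniteDimensional ℝ H] [MeasurableSpace H] [BorelSpace H] [NormedAddCommGroup V]
    [InnerProductSpace ℝ V] [FiniteDimensional ℝ V] [MeasurableSpace V] [BorelSpace V]
    (G : HeisenbergType m k H V) (hk : 0 < k) {R : ℝ} (hR : 0 < R) :
    (∀ (Ω : Set (H × V)) (f : H × V → ℝ) (g : Fin m → H × V → ℝ),
      IsOpen Ω → Bornology.IsBounded Ω → IsSobolevPotential G 2 Ω f g →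
      (∀ᵐ x, x ∉ closure Ω →
        weakP k 2 f g x = cConst m k 2 R ^ (2 : ℝ) * ‖x.1‖ ^ (2 : ℝ)) →
      ∃ (B : H →L[ℝ] H) (c : ℝ) (σ₀ : V), Admissible G B c ∧
        interior (closure Ω) = {x | quartic B c σ₀ x < R ^ 4} ∧
        ∀ x ∉ closure Ω, f x = (quartic B c σ₀ x / R ^ 4) ^ (-(homDim m k - 2) / 4)) ∧
    (∀ (B : H →L[ℝ] H) (c : ℝ) (σ₀ : V) (Ω : Set (H × V)) (f : H × V → ℝ),
      Admissible G B c → Ω = {x | quartic B c σ₀ x < R ^ 4} →
      (f = fun x => (quartic B c σ₀ x / R ^ 4) ^ (-(homDim m k - 2) / 4)) →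
      IsOpen Ω ∧ IsConnected Ω ∧ Bornology.IsBounded Ω ∧ interior (closure Ω) = Ω ∧
        IsSobolevPotential G 2 Ω f (fun i => X G i f) ∧
        (∀ x ∉ closure Ω,
          weakP k 2 f (fun i => X G i f) x = cConst m k 2 R ^ (2 : ℝ) * ‖x.1‖ ^ (2 : ℝ)) ∧
        (∀ (B' : H →L[ℝ] H) (c' : ℝ) (σ' : V) (R' : ℝ), Admissible G B' c' → 0 < R' →
          Ω = {x | quartic B' c' σ' x < R' ^ 4} → B' = B ∧ c' = c ∧ σ' = σ₀ ∧ R' = R) ∧
        ((∃ (R' : ℝ) (σ' : V), Ω = gaugeBall R' σ') ↔ B = 0)) := by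
  have hT := qtop_st G (qconn_st G)
  refine ⟨fun _ _ _ h1 h2 h3 h4 => all_of G (qthird_st G) qglue_st hT hk hR h1 h2 h3 h4,
    fun B c σ₀ Ω f hB hΩ hf => ?_⟩
  obtain ⟨h1, h2, h3, h4, h5, h6⟩ := all_to G hT (qpot_st G) hk hR σ₀ hB hΩ hf
  subst hΩ
  exact ⟨h1, h2, h3, h4, h5, h6, fun _ _ _ _ h7 h8 h9 => all_inj G hT hk hR h8 hB h7 h9,
    all_ball G hT hk hR hB⟩

end Pool.Agent.MP_1048c2_an.Cl

end
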